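import Pool.Agent.P.MP_b60056_nt.AA.Api

/-! The first derivative test and the higher derivative test of van der Corput. -/

namespace Pool.Agent.P.MP_9d1108_nt.Sw

open Finset
open Pool.Agent.P.MP_b60056_nt.AA

theorem mvt {f g : ℝ → ℝ} {A B lo hi u v : ℝ} (h : ∀ x ∈ Set.Icc A B, HasDerivAt f (g x) x)
    (hb : ∀ x ∈ Set.Icc A B, lo ≤ g x ∧ g x ≤ hi) (hu : A ≤ u) (huv : u ≤ v) (hv : v ≤ B) :
    lo * (v - u) ≤ f v - f u ∧ f v - f u ≤ hi * (v - u) := by
  rcases huv.eq_or_lt with rfl | huv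
  · simp
  have hs : ∀ x ∈ Set.Icc u v, x ∈ Set.Icc A B := fun x hx => ⟨hu.trans hx.1, hx.2.trans hv⟩
  obtain ⟨c, hc, e⟩ := exists_hasDerivAt_eq_slope f g huv
    (fun x hx => (h x (hs x hx)).continuousAt.continuousWithinAt)
    (fun x hx => h x (hs x ⟨hx.1.le, hx.2.le⟩))
  obtain ⟨h1, h2⟩ := hb c (hs c ⟨hc.1.le, hc.2.le⟩)
  rw [e] at h1 h2
  exact ⟨(le_div_iff₀ (by linarith)).1 h1, (div_le_iff₀ (by linarith)).1 h2⟩

theorem ee_low {d : ℝ} (h0 : 0 ≤ d) (h1 : d ≤ 3) : d / 2 ≤ ‖ee d - 1‖ := by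
  have hpi := Real.pi_gt_three
  have hpi' := Real.pi_le_four
  have e : ‖ee d - 1‖ = ‖2 * Real.sin (d / 2)‖ := by
    rw [← Complex.norm_exp_I_mul_ofReal_sub_one, ee, mul_comm]
  have h2 := Real.mul_le_sin (x := d / 2) (by linarith) (by linarith)
  have h3 : d / 4 ≤ 2 / Real.pi * (d / 2) := by
    rw [div_mul_eq_mul_div, le_div_iff₀ (by linarith)]
    nlinarith
  rw [e, Real.norm_eq_abs]
  exact le_trans (by linarith) (le_abs_self _)

theorem kl (F : ℕ → ℝ) (N : ℕ) {lo mu : ℝ} (hlo : 0 < lo)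
    (h1 : ∀ n ≤ N, lo ≤ F (n + 1) - F n ∧ F (n + 1) - F n ≤ 3)
    (h2 : ∀ n < N, |F (n + 1 + 1) - F (n + 1) - (F (n + 1) - F n)| ≤ mu) :
    ‖∑ n ∈ range N, ee (F n)‖ ≤ 4 / lo + 4 * (N * mu) / lo ^ 2 := by
  set a : ℕ → ℂ := fun n => ee (F (n + 1) - F n) - 1 with ha
  have hl : ∀ n ≤ N, lo / 2 ≤ ‖a n‖ := fun n hn =>
    le_trans (by linarith [(h1 n hn).1]) (ee_low (by linarith [(h1 n hn).1]) (h1 n hn).2)
  have h0 : ∀ n ≤ N, a n ≠ 0 := fun n hn e => by
    have := hl n hn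
    rw [e, norm_zero] at this
    linarith
  have hw : ∀ n ≤ N, ‖(a n)⁻¹‖ ≤ 2 / lo := fun n hn => by
    rw [norm_inv, ← inv_div]
    exact inv_anti₀ (by linarith) (hl n hn)
  have key : ∀ m ≤ N, ∑ n ∈ range m, ee (F n) = (a m)⁻¹ * ee (F m) - (a 0)⁻¹ * ee (F 0) -
      ∑ n ∈ range m, ((a (n + 1))⁻¹ - (a n)⁻¹) * ee (F (n + 1)) := by
    intro m hm
    induction m with
    | zero => simp
    | succ m ih =>
      have e : ee (F (m + 1)) = ee (F m) * (a m + 1) := by
        rw [ha]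
        simp only [sub_add_cancel]
        rw [← ee_add]
        congr 1
        ring
      have e2 := h0 m (by omega)
      rw [sum_range_succ, sum_range_succ, ih (by omega)]
      have : (a m)⁻¹ * ee (F (m + 1)) = ee (F m) + (a m)⁻¹ * ee (F m) := by
        rw [e]
        field_simp
      linear_combination -this
  rw [key N le_rfl]
  have b1 : ‖(a N)⁻¹ * ee (F N)‖ ≤ 2 / lo := by rw [norm_mul, norm_ee, mul_one]; exact hw N le_rfl
  have b2 : ‖(a 0)⁻¹ * ee (F 0)‖ ≤ 2 / lo := by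
    rw [norm_mul, norm_ee, mul_one]; exact hw 0 (Nat.zero_le _)
  have b3 : ‖∑ n ∈ range N, ((a (n + 1))⁻¹ - (a n)⁻¹) * ee (F (n + 1))‖ ≤
      4 * (N * mu) / lo ^ 2 := by
    refine (norm_sum_le_of_le _ (n := fun _ => 2 / lo * mu * (2 / lo)) fun n hn => ?_).trans
      (le_of_eq (by simp; field_simp; ring))
    have hn' := mem_range.1 hn
    rw [norm_mul, norm_ee, mul_one, inv_sub_inv' (h0 _ hn') (h0 _ hn'.le), norm_mul, norm_mul]
    have e : ‖a n - a (n + 1)‖ ≤ mu := by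
      rw [ha]
      simp only [sub_sub_sub_cancel_right]
      rw [norm_sub_rev]
      exact (norm_ee_sub_le _ _).trans (h2 n hn')
    have := hw _ hn'
    have := hw _ hn'.le
    have : 0 ≤ mu := (norm_nonneg _).trans e
    gcongr
  have := norm_sub_le ((a N)⁻¹ * ee (F N) - (a 0)⁻¹ * ee (F 0))
    (∑ n ∈ range N, ((a (n + 1))⁻¹ - (a n)⁻¹) * ee (F (n + 1)))
  have := norm_sub_le ((a N)⁻¹ * ee (F N)) ((a 0)⁻¹ * ee (F 0))
  have : 4 / lo = 2 / lo + 2 / lo := by ring
  linarith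

theorem sum_le_card (E : ℕ → ℂ) (hE : ∀ n, ‖E n‖ ≤ 1) (s : Finset ℕ) :
    ‖∑ n ∈ s, E n‖ ≤ s.card :=
  (norm_sum_le_of_le _ (n := fun _ => 1) fun n _ => hE n).trans (by simp)

theorem weyl (E : ℕ → ℂ) (hE : ∀ n, ‖E n‖ ≤ 1) (N H : ℕ) (hH : 1 ≤ H) {s : ℝ} (hs : 0 ≤ s)
    (h : ∑ a ∈ range H, ∑ b ∈ range H,
      ‖∑ n ∈ range N, E (n + a) * (starRingEnd ℂ) (E (n + b))‖ ≤ (H : ℝ) ^ 2 * N * s ^ 2) :
    ‖∑ n ∈ range N, E n‖ ≤ 2 * H + N * s := by
  have hH' : (0 : ℝ) < H := by exact_mod_cast hH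
  have sh : ∀ a ∈ range H, ‖∑ n ∈ range N, E n - ∑ n ∈ range N, E (n + a)‖ ≤ 2 * H := by
    intro a ha
    have e1 := sum_range_add E N a
    have e2 := sum_range_add E a N
    have e3 : ∑ n ∈ range N, E n - ∑ n ∈ range N, E (n + a) =
        ∑ n ∈ range a, E n - ∑ n ∈ range a, E (N + n) := by
      simp only [add_comm a] at e2
      linear_combination e2 - e1
    have b1 := sum_le_card E hE (range a)
    have b2 := sum_le_card (fun n => E (N + n)) (fun n => hE _) (range a)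
    have b3 : (a : ℝ) ≤ H := by exact_mod_cast (mem_range.1 ha).le
    rw [card_range] at b1 b2
    rw [e3]
    linarith [norm_sub_le (∑ n ∈ range a, E n) (∑ n ∈ range a, E (N + n))]
  set T : ℕ → ℂ := fun n => ∑ a ∈ range H, E (n + a) with hT
  have e : (H : ℂ) * ∑ n ∈ range N, E n =
      ∑ a ∈ range H, (∑ n ∈ range N, E n - ∑ n ∈ range N, E (n + a)) + ∑ n ∈ range N, T n := by
    rw [sum_sub_distrib, hT, sum_comm (s := range N)]
    simp
  have b1 : ‖∑ a ∈ range H, (∑ n ∈ range N, E n - ∑ n ∈ range N, E (n + a))‖ ≤ H * (2 * H) :=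
    (norm_sum_le_of_le _ sh).trans (by simp)
  have b2 : ∑ n ∈ range N, ‖T n‖ ^ 2 ≤ (H : ℝ) ^ 2 * N * s ^ 2 := by
    refine le_trans ?_ h
    have e1 : ((∑ n ∈ range N, ‖T n‖ ^ 2 : ℝ) : ℂ) = ∑ a ∈ range H, ∑ b ∈ range H,
        ∑ n ∈ range N, E (n + a) * (starRingEnd ℂ) (E (n + b)) := by
      push_cast
      simp only [← Complex.mul_conj', hT, map_sum, sum_mul_sum]
      rw [sum_comm]
      exact sum_congr rfl fun a _ => sum_comm
    have e2 := congrArg norm e1
    rw [Complex.norm_real, Real.norm_of_nonneg (by positivity)] at e2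
    rw [e2]
    exact norm_sum_le_of_le _ fun a _ => norm_sum_le _ _
  have b3 : ‖∑ n ∈ range N, T n‖ ≤ H * (N * s) := by
    refine (norm_sum_le _ _).trans (abs_le_of_sq_le_sq' ?_ (by positivity)).2
    have := sq_sum_le_card_mul_sum_sq (s := range N) (f := fun n => ‖T n‖)
    rw [card_range] at this
    refine this.trans ((mul_le_mul_of_nonneg_left b2 (by positivity)).trans (le_of_eq (by ring)))
  have b4 := (norm_add_le _ _).trans (add_le_add b1 b3)
  rw [← e, norm_mul, Complex.norm_natCast, ← mul_add] at b4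
  exact le_of_mul_le_mul_left b4 hH'

theorem near_card (H a : ℕ) {r : ℝ} (hr : 0 ≤ r) :
    (((range H).filter fun b : ℕ => |(a : ℝ) - b| < r).card : ℝ) ≤ 2 * r + 1 := by
  have h1 : ((range H).filter fun b : ℕ => |(a : ℝ) - b| < r) ⊆ Icc (a - ⌊r⌋₊) (a + ⌊r⌋₊) := by
    intro b hb
    have h2 := abs_lt.1 (mem_filter.1 hb).2
    have h3 := Nat.lt_floor_add_one r
    have h4 : a < b + ⌊r⌋₊ + 1 := by exact_mod_cast (by linarith : (a : ℝ) < b + ⌊r⌋₊ + 1)
    have h5 : b < a + ⌊r⌋₊ + 1 := by exact_mod_cast (by linarith : (b : ℝ) < a + ⌊r⌋₊ + 1)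
    rw [mem_Icc]
    omega
  have h2 : ((range H).filter fun b : ℕ => |(a : ℝ) - b| < r).card ≤ 2 * ⌊r⌋₊ + 1 :=
    (card_le_card h1).trans (by rw [Nat.card_Icc]; omega)
  have h3 := Nat.floor_le hr
  have h4 : (((range H).filter fun b : ℕ => |(a : ℝ) - b| < r).card : ℝ) ≤ 2 * ⌊r⌋₊ + 1 := by
    exact_mod_cast h2
  linarith

theorem vdc (k : ℕ) : ∃ (b : ℕ) (C : ℝ), 1 ≤ b ∧ 0 < C ∧
    ∀ (f : ℕ → ℝ → ℝ) (M R lo hi mu ρ σ : ℝ) (N H : ℕ),
    (∀ j, ∀ x ∈ Set.Icc M (M + R), HasDerivAt (f j) (f (j + 1) x) x) →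
    (∀ x ∈ Set.Icc M (M + R), lo ≤ f (k + 1) x ∧ f (k + 1) x ≤ hi) →
    (∀ x ∈ Set.Icc M (M + R), |f (k + 2) x| ≤ mu) →
    (N : ℝ) + k * H + 2 ≤ R → 0 < σ → σ ≤ 1 → 0 < lo → 0 ≤ ρ → 1 ≤ σ ^ b * H → H ≤ σ ^ b * N →
    hi * (H : ℝ) ^ k ≤ 3 → mu * N ≤ ρ * lo → 1 + ρ ≤ σ ^ b * N * (H : ℝ) ^ k * lo →
    ‖∑ n ∈ range N, ee (f 0 (M + n))‖ ≤ C * σ * N := by
  induction k with
  | zero =>
    refine ⟨1, 4, le_rfl, by norm_num, ?_⟩
    intro f M R lo hi mu ρ σ N H hd h1 h2 hR _ _ hlo hρ _ _ hhi hmu hfin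
    simp only [pow_zero, mul_one, pow_one, Nat.cast_zero, zero_mul, add_zero, zero_add] at *
    have hN : (0 : ℝ) ≤ N := Nat.cast_nonneg _
    have key := kl (fun n => f 0 (M + n)) N (mu := mu) hlo (fun n hn => by
      have hn' : (n : ℝ) ≤ N := by exact_mod_cast hn
      have hn0 : (0 : ℝ) ≤ n := Nat.cast_nonneg _
      have := mvt (hd 0) h1 (u := M + n) (v := M + (n + 1)) (by linarith) (by linarith)
        (by linarith)
      push_cast
      constructor <;> nlinarith [this.1, this.2]) (fun n hn => by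
      have hn' : (n : ℝ) ≤ N := by exact_mod_cast hn.le
      have hn0 : (0 : ℝ) ≤ n := Nat.cast_nonneg _
      have := mvt (A := M) (B := M + R - 1) (f := fun x => f 0 (x + 1) - f 0 x)
        (g := fun x => f 1 (x + 1) - f 1 x) (lo := -mu) (hi := mu)
        (fun x hx => ((hd 0 _ ⟨by linarith [hx.1], by linarith [hx.2]⟩).comp_add_const x 1).sub
          (hd 0 _ ⟨hx.1, by linarith [hx.2]⟩))
        (fun x hx => by
          have := mvt (hd 1) (fun x hx => abs_le.1 (h2 x hx)) (u := x) (v := x + 1) hx.1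
            (by linarith) (by linarith [hx.2])
          simpa using this) (u := M + n) (v := M + (n + 1)) (by linarith) (by linarith)
        (by linarith)
      push_cast
      rw [abs_le]
      simp only [add_assoc] at this ⊢
      constructor <;> nlinarith [this.1, this.2])
    refine key.trans ?_
    have e : 4 * (N * mu) / lo ^ 2 ≤ 4 * ρ / lo := by
      rw [div_le_div_iff₀ (by positivity) hlo]
      nlinarith
    have e2 : 4 / lo + 4 * ρ / lo ≤ 4 * σ * N := by
      rw [← add_div, div_le_iff₀ hlo]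
      nlinarith
    linarith
  | succ k ih =>
    obtain ⟨b, C, hb, hC, ih⟩ := ih
    refine ⟨2 * b + 2, 5 + C, by omega, by positivity, ?_⟩
    intro f M R lo hi mu ρ σ N H hd h1 h2 hR hσ hσ1 hlo hρ hH1 hH2 hhi hmu hfin
    have hN : (0 : ℝ) ≤ N := Nat.cast_nonneg _
    have hH0 : (0 : ℝ) ≤ H := Nat.cast_nonneg _
    have hk0 : (0 : ℝ) ≤ k := Nat.cast_nonneg _
    push_cast at hR
    have p1 : σ ^ (2 * b + 2) = (σ ^ 2) ^ b * σ ^ 2 := by rw [← pow_mul, ← pow_add]
    have p2 : σ ^ 2 ≤ 1 := pow_le_one₀ hσ.le hσ1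
    have p3 : (σ ^ 2) ^ b ≤ 1 := pow_le_one₀ (by positivity) p2
    have p4 : σ ^ (2 * b + 2) ≤ (σ ^ 2) ^ b := by
      rw [p1]; exact mul_le_of_le_one_right (by positivity) p2
    have p5 : σ ^ (2 * b + 2) ≤ σ ^ 2 := by
      rw [p1]; exact mul_le_of_le_one_left (by positivity) p3
    have p6 : 1 ≤ σ ^ 2 * H := hH1.trans (by gcongr)
    have p7 : (1 : ℝ) ≤ H := p6.trans (mul_le_of_le_one_left hH0 p2)
    have hkH : 0 ≤ (k : ℝ) * H := by positivity
    have hi0 : 0 ≤ hi := by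
      have := h1 M ⟨le_rfl, by nlinarith⟩
      linarith [this.1, this.2]
    set E : ℕ → ℂ := fun n => ee (f 0 (M + n)) with hE
    have good : ∀ a c : ℕ, a < H → c ≤ a → σ ^ 2 * H ≤ (a : ℝ) - c →
        ‖∑ n ∈ range N, E (n + a) * (starRingEnd ℂ) (E (n + c))‖ ≤ C * σ ^ 2 * N := by
      intro a c ha hc hac
      have ha' : (a : ℝ) ≤ H := by exact_mod_cast ha.le
      have hc' : (c : ℝ) ≤ a := by exact_mod_cast hc
      have hc0 : (0 : ℝ) ≤ c := Nat.cast_nonneg _
      have := ih (fun j x => f j (x + a) - f j (x + c)) M (R - H) (lo * (a - c)) (hi * (a - c))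
        (mu * (a - c)) ρ (σ ^ 2) N H
        (fun j x hx =>
          ((hd j _ ⟨by linarith [hx.1], by linarith [hx.2]⟩).comp_add_const x a).sub
          ((hd j _ ⟨by linarith [hx.1], by linarith [hx.2]⟩).comp_add_const x c))
        (fun x hx => by
          have := mvt (hd (k + 1)) h1 (u := x + c) (v := x + a) (by linarith [hx.1])
            (by linarith) (by linarith [hx.2])
          rwa [add_sub_add_left_eq_sub] at this)
        (fun x hx => by
          have := mvt (hd (k + 2)) (fun x hx => abs_le.1 (h2 x hx)) (u := x + c) (v := x + a)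
            (by linarith [hx.1]) (by linarith) (by linarith [hx.2])
          rw [add_sub_add_left_eq_sub, neg_mul] at this
          exact abs_le.2 this)
        (by linarith) (by positivity) p2 (mul_pos hlo (by linarith)) hρ (hH1.trans (by gcongr))
        (hH2.trans (by gcongr))
        (le_trans (by
          rw [pow_succ', ← mul_assoc]
          gcongr
          linarith) hhi)
        (by nlinarith [mul_le_mul_of_nonneg_right hmu (show 0 ≤ (a : ℝ) - c by linarith)])
        (hfin.trans (by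
          rw [p1, pow_succ (H : ℝ)]
          calc _ = (σ ^ 2) ^ b * N * (H : ℝ) ^ k * (lo * (σ ^ 2 * H)) := by ring
            _ ≤ _ := by gcongr))
      refine le_trans (le_of_eq ?_) this
      congr 1
      refine sum_congr rfl fun n _ => ?_
      rw [ee_sub, hE]
      simp only [Nat.cast_add, add_assoc]
    have all : ∀ a ∈ range H, ∀ c ∈ range H,
        ‖∑ n ∈ range N, E (n + a) * (starRingEnd ℂ) (E (n + c))‖ ≤
          C * σ ^ 2 * N + if |(a : ℝ) - c| < σ ^ 2 * H then (N : ℝ) else 0 := by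
      intro a ha c hc
      split_ifs with h
      · have := sum_le_card (fun n => E (n + a) * (starRingEnd ℂ) (E (n + c)))
          (fun n => by simp [hE, norm_ee]) (range N)
        rw [card_range] at this
        have : 0 ≤ C * σ ^ 2 * N := by positivity
        linarith
      · rw [add_zero]
        rcases le_total c a with h3 | h3
        · have h4 : (c : ℝ) ≤ a := by exact_mod_cast h3
          rw [abs_of_nonneg (by linarith)] at h
          exact good a c (mem_range.1 ha) h3 (not_lt.1 h)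
        · have h4 : (a : ℝ) ≤ c := by exact_mod_cast h3
          rw [abs_sub_comm, abs_of_nonneg (by linarith)] at h
          rw [← Complex.norm_conj, map_sum]
          simpa [mul_comm] using good c a (mem_range.1 hc) h3 (not_lt.1 h)
    have fin := weyl E (fun n => (norm_ee _).le) N H (by exact_mod_cast p7)
      (s := (3 + C) * σ) (by positivity) (by
        refine (sum_le_sum fun a ha => sum_le_sum (all a ha)).trans ?_
        refine (sum_le_sum (g := fun _ => H * (C * σ ^ 2 * N) + 3 * (σ ^ 2 * H) * N)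
          fun a _ => ?_).trans ?_
        · rw [sum_add_distrib, ← sum_filter]
          simp only [sum_const, card_range, nsmul_eq_mul]
          have := near_card H a (r := σ ^ 2 * H) (by positivity)
          gcongr
          linarith
        · simp only [sum_const, card_range, nsmul_eq_mul]
          have : 0 ≤ (H : ℝ) ^ 2 * N * σ ^ 2 := by positivity
          nlinarith [mul_nonneg this hC.le, mul_nonneg this (sq_nonneg C)])
    have p8 : σ ^ (2 * b + 2) ≤ σ := p5.trans (by nlinarith)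
    have p9 : (H : ℝ) ≤ σ * N := hH2.trans (by gcongr)
    nlinarith

end Pool.Agent.P.MP_9d1108_nt.Sw
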