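import Pool.Agent.P.MP_9d1108_nt.Sw.Exq

/-! Tuples of integers for which `r ∏ q + F ∏ (q + e)` lies in a short interval. -/

namespace Pool.Agent.P.MP_9d1108_nt.Sw

open Finset
open Pool.Agent.P.MP_b60056_nt.AA

/-- The kernel of Fejer. -/
noncomputable def fej (N : ℕ) (x : ℝ) : ℝ := ‖∑ a ∈ range N, ee (a * x)‖ ^ 2

theorem fej_low {N : ℕ} {x : ℝ} (h : ((N : ℝ) - 1) * |x| ≤ 1) : (N : ℝ) ^ 2 ≤ 4 * fej N x := by
  have h1 : (N : ℝ) / 2 ≤ ‖∑ a ∈ range N, ee (a * x)‖ := by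
    refine le_trans ?_ (Complex.re_le_norm _)
    rw [Complex.re_sum]
    refine le_trans (by simp [div_eq_mul_inv]) (sum_le_sum fun a ha => (?_ : (2 : ℝ)⁻¹ ≤ _))
    have h2 : (a : ℝ) + 1 ≤ N := by exact_mod_cast mem_range.1 ha
    have h3 : |a * x| ≤ 1 := by
      rw [abs_mul, Nat.abs_cast]
      exact le_trans (mul_le_mul_of_nonneg_right (by linarith) (abs_nonneg _)) h
    have h4 := Real.one_sub_sq_div_two_le_cos (x := a * x)
    rw [ee_re]
    linarith [(sq_le_one_iff_abs_le_one _).2 h3]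
  have h2 := pow_le_pow_left₀ (by positivity) h1 2
  rw [fej]
  linarith

theorem fej_eq (N : ℕ) (x : ℝ) :
    (fej N x : ℂ) = ∑ a ∈ range N ×ˢ range N, ee ((a.1 - a.2) * x) := by
  rw [fej, ← Complex.normSq_eq_norm_sq, ← Complex.mul_conj, map_sum, sum_mul_sum, sum_product]
  simp only [← ee_sub, sub_mul]

theorem dec_sum (N : ℕ) {s : ℝ} (hs : 0 < s) (hs1 : s ≤ 1) :
    ∑ a ∈ range N ×ˢ range N, ((1 + s * |(a.1 : ℝ) - a.2|) ^ 2)⁻¹ ≤ N * (4 / s) := by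
  rw [sum_product_right]
  refine (sum_le_card_nsmul _ _ (4 / s) fun b _ => ?_).trans_eq (by simp)
  have bd : ∀ t : ℝ, |t / (1 + s * |t|)| ≤ 1 / s := fun t => by
    rw [abs_div, abs_of_pos (show 0 < 1 + s * |t| by positivity),
      div_le_div_iff₀ (by positivity) hs]
    linarith
  have key := sum_range_sub (fun a : ℕ => ((a : ℝ) - b) / (1 + s * |(a : ℝ) - b|)) N
  have h1 : ∀ a ∈ range N, ((1 + s * |(a : ℝ) - b|) ^ 2)⁻¹ ≤
      2 * ((((a + 1 : ℕ) : ℝ) - b) / (1 + s * |((a + 1 : ℕ) : ℝ) - b|) -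
        ((a : ℝ) - b) / (1 + s * |(a : ℝ) - b|)) := fun a _ => by
    push_cast
    rcases le_or_gt b a with h | h
    · have h2 : (0 : ℝ) ≤ a - b := sub_nonneg.2 (by exact_mod_cast h)
      rw [show (a : ℝ) + 1 - b = a - b + 1 by ring]
      generalize (a : ℝ) - b = t at h2
      rw [abs_of_nonneg h2, abs_of_nonneg (by linarith),
        show 2 * ((t + 1) / (1 + s * (t + 1)) - t / (1 + s * t)) =
          ((1 + s * t) * ((1 + s * (t + 1)) / 2))⁻¹ by field_simp; ring, sq]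
      gcongr
      nlinarith [mul_nonneg hs.le h2]
    · have h2 : (0 : ℝ) ≤ b - (a + 1) := sub_nonneg.2 (by exact_mod_cast h)
      rw [show (a : ℝ) + 1 - b = -(b - (a + 1)) by ring, show (a : ℝ) - b = -(b - (a + 1) + 1) by ring]
      generalize (b : ℝ) - (a + 1) = t at h2
      rw [abs_neg, abs_neg, abs_of_nonneg h2, abs_of_nonneg (by linarith),
        show 2 * (-t / (1 + s * t) - -(t + 1) / (1 + s * (t + 1))) =
          ((1 + s * (t + 1)) * ((1 + s * t) / 2))⁻¹ by field_simp; ring, sq]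
      gcongr
      nlinarith [mul_nonneg hs.le h2]
  refine (sum_le_sum h1).trans ?_
  rw [← mul_sum, key, show 4 / s = 2 * (1 / s + 1 / s) by ring]
  linarith [(abs_le.1 (bd ((N : ℝ) - b))).2, (abs_le.1 (bd (((0 : ℕ) : ℝ) - b))).1]

section box

variable {ι : Type} (A : Finset ι) (ω u w : ι → ℝ) {J : ℕ} {y s W δ : ℝ}

theorem box (hω : ∀ i, 0 ≤ ω i) {N1 N2 : ℕ} (hs : 0 < s) (hs1 : s ≤ 1) (hW : 0 ≤ W) (h1 : 0 < N1)
    (h2 : 0 < N2) (hS : ∀ a b : ℝ, |a| ≤ N1 - 1 → |b| ≤ N2 - 1 →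
      ‖∑ i ∈ A, ω i * ee (a * u i + b * y * w i)‖ ^ J ≤
        W * ((1 + 1 * |a|) ^ 2)⁻¹ * ((1 + s * |b|) ^ 2)⁻¹)
    (u0 w0 : ℝ) (B : Finset (Fin J → ι)) (hB : B ⊆ Fintype.piFinset fun _ => A)
    (hB' : ∀ q ∈ B, ((N1 : ℝ) - 1) * |∑ i, u (q i) - u0| ≤ 1 ∧
      ((N2 : ℝ) - 1) * |y * (∑ i, w (q i) - w0)| ≤ 1) :
    ∑ q ∈ B, ∏ i, ω (q i) ≤ 256 * W / (s * N1 * N2) := by
  obtain ⟨Z, hZ⟩ : ∃ Z, Z = ∑ q ∈ Fintype.piFinset fun _ : Fin J => A, (∏ i, ω (q i)) *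
    (fej N1 (∑ i, u (q i) - u0) * fej N2 (y * (∑ i, w (q i) - w0))) := ⟨_, rfl⟩
  have hp : ∀ q : Fin J → ι, 0 ≤ ∏ i, ω (q i) := fun q => prod_nonneg fun _ _ => hω _
  have hf : ∀ N x, 0 ≤ fej N x := fun _ _ => sq_nonneg _
  have a1 : (∑ q ∈ B, ∏ i, ω (q i)) * ((N1 : ℝ) ^ 2 * (N2 : ℝ) ^ 2) ≤ 16 * Z := by
    rw [hZ, sum_mul, mul_sum]
    refine le_trans (sum_le_sum fun q hq => ?_) (sum_le_sum_of_subset_of_nonneg hB fun q _ _ =>
      mul_nonneg (by norm_num) (mul_nonneg (hp q) (mul_nonneg (hf _ _) (hf _ _))))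
    have := mul_le_mul_of_nonneg_left (mul_le_mul (fej_low (hB' q hq).1) (fej_low (hB' q hq).2)
      (by positivity) (mul_nonneg (by norm_num) (hf _ _))) (hp q)
    linarith
  have a2 : (Z : ℂ) = ∑ a ∈ range N1 ×ˢ range N1, ∑ b ∈ range N2 ×ˢ range N2,
      ee (-((a.1 - a.2) * u0 + (b.1 - b.2) * y * w0)) *
        (∑ i ∈ A, ω i * ee ((a.1 - a.2) * u i + (b.1 - b.2) * y * w i)) ^ J := by
    rw [hZ]
    push_cast
    simp only [fej_eq, sum_mul_sum]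
    simp only [mul_sum (range N1 ×ˢ range N1), mul_sum (range N2 ×ˢ range N2)]
    rw [sum_comm]
    refine sum_congr rfl fun a _ => ?_
    rw [sum_comm]
    refine sum_congr rfl fun b _ => ?_
    rw [← Fin.prod_const, prod_univ_sum, mul_sum]
    refine sum_congr rfl fun q _ => ?_
    rw [prod_mul_distrib, ← ee_sum, ← ee_add, mul_left_comm (ee _), ← ee_add, sum_add_distrib, ← mul_sum,
      ← mul_sum]
    congr 2
    ring
  have ab : ∀ N : ℕ, ∀ a ∈ range N ×ˢ range N, |(a.1 : ℝ) - a.2| ≤ N - 1 := fun N a ha => by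
    have e1 : (a.1 : ℝ) + 1 ≤ N := by exact_mod_cast mem_range.1 (mem_product.1 ha).1
    have e2 : (a.2 : ℝ) + 1 ≤ N := by exact_mod_cast mem_range.1 (mem_product.1 ha).2
    rw [abs_le]
    constructor <;> linarith [Nat.cast_nonneg (α := ℝ) a.1, Nat.cast_nonneg (α := ℝ) a.2]
  have a3 : Z ≤ W * (N1 * (4 / 1)) * (N2 * (4 / s)) := by
    refine (le_abs_self Z).trans ?_
    rw [← Real.norm_eq_abs, ← Complex.norm_real, a2]
    refine (norm_sum_le_of_le _ fun a ha => norm_sum_le_of_le _ fun b hb =>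
      ((norm_mul _ _).trans (by rw [norm_ee, one_mul, norm_pow])).trans_le
        (hS _ _ (ab _ a ha) (ab _ b hb))).trans ?_
    simp only [← mul_sum, ← sum_mul]
    exact mul_le_mul (mul_le_mul_of_nonneg_left (dec_sum N1 one_pos le_rfl) hW) (dec_sum N2 hs hs1)
      (sum_nonneg fun _ _ => by positivity) (by positivity)
  have n1 : (0 : ℝ) < N1 := by exact_mod_cast h1
  have n2 : (0 : ℝ) < N2 := by exact_mod_cast h2
  refine le_of_mul_le_mul_right (a1.trans ?_) (by positivity)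
  rw [show 256 * W / (s * N1 * N2) * ((N1 : ℝ) ^ 2 * (N2 : ℝ) ^ 2) =
    16 * (W * (N1 * (4 / 1)) * (N2 * (4 / s))) by field_simp; ring]
  linarith

theorem cover (hω : ∀ i, 0 ≤ ω i) (hs : 0 < s) (hs1 : s ≤ 1) (hW : 0 ≤ W) (hδ : 0 < δ) (hy : 0 < y)
    (hJ : 1 ≤ J) (hw : ∀ i ∈ A, y * |w i| ≤ 1) (hS : ∀ a b : ℝ, |a| ≤ 1 / δ → |b| * y ≤ 1 / δ →
      ‖∑ i ∈ A, ω i * ee (a * u i + b * y * w i)‖ ^ J ≤
        W * ((1 + 1 * |a|) ^ 2)⁻¹ * ((1 + s * |b|) ^ 2)⁻¹)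
    (ψ : ℝ → ℝ) (hψ : ∀ a b, |ψ a - ψ b| ≤ |a - b|) (θ : ℝ) (B : Finset (Fin J → ι))
    (hB : B ⊆ Fintype.piFinset fun _ => A)
    (hB' : ∀ q ∈ B, |∑ i, u (q i) + ψ (∑ i, w (q i)) - θ| ≤ δ) :
    ∑ q ∈ B, ∏ i, ω (q i) ≤ 2048 * J * δ * W / s := by
  have c1 := Nat.le_ceil (1 / (2 * δ))
  have c2 := Nat.le_ceil (1 / (y * δ))
  have d1 := Nat.ceil_lt_add_one (show 0 ≤ 1 / (2 * δ) by positivity)
  have d2 := Nat.ceil_lt_add_one (show 0 ≤ 1 / (y * δ) by positivity)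
  have p1 : 0 < ⌈1 / (2 * δ)⌉₊ := Nat.ceil_pos.2 (by positivity)
  have p2 : 0 < ⌈1 / (y * δ)⌉₊ := Nat.ceil_pos.2 (by positivity)
  generalize ⌈1 / (2 * δ)⌉₊ = N1 at *
  generalize ⌈1 / (y * δ)⌉₊ = N2 at *
  have n1 : (1 : ℝ) ≤ N1 := by exact_mod_cast p1
  have n2 : (1 : ℝ) ≤ N2 := by exact_mod_cast p2
  have hJ' : (1 : ℝ) ≤ J := by exact_mod_cast hJ
  have e1 : ((N1 : ℝ) - 1) * (2 * δ) ≤ 1 := (le_div_iff₀ (by positivity)).1 (by linarith)
  have e2 : ((N2 : ℝ) - 1) * (y * δ) ≤ 1 := (le_div_iff₀ (by positivity)).1 (by linarith)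
  have f0 := Nat.floor_le (show 0 ≤ J * (1 / (y * δ)) + 1 / 2 by positivity)
  have hk : ∀ q ∈ B, round ((∑ i, w (q i)) / δ) ∈
      Icc (-(⌊J * (1 / (y * δ)) + 1 / 2⌋₊ : ℤ)) ⌊J * (1 / (y * δ)) + 1 / 2⌋₊ := fun q hq => by
    have g1 : |∑ i, w (q i)| ≤ J * (1 / y) := by
      refine (abs_sum_le_sum_abs _ _).trans ((sum_le_card_nsmul _ _ (1 / y) fun i _ => ?_).trans_eq
        (by simp))
      rw [le_div_iff₀' hy]
      exact hw _ (Fintype.mem_piFinset.1 (hB hq) i)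
    have g2 : |(∑ i, w (q i)) / δ| ≤ J * (1 / (y * δ)) := by
      rw [abs_div, abs_of_pos hδ, div_le_iff₀ hδ]
      exact g1.trans_eq (by field_simp)
    have g3 := abs_sub_round ((∑ i, w (q i)) / δ)
    rw [mem_Icc, ← abs_le, ← Int.natCast_natAbs, Nat.cast_le]
    refine Nat.le_floor ?_
    rw [Nat.cast_natAbs, Int.cast_abs]
    linarith [abs_sub_abs_le_abs_sub (round ((∑ i, w (q i)) / δ) : ℝ) ((∑ i, w (q i)) / δ),
      abs_sub_comm (round ((∑ i, w (q i)) / δ) : ℝ) ((∑ i, w (q i)) / δ)]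
  rw [← sum_fiberwise_of_maps_to hk]
  refine (sum_le_card_nsmul _ _ (256 * W / (s * N1 * N2)) fun k _ => ?_).trans ?_
  · refine box A ω u w (y := y) hω hs hs1 hW p1 p2 (fun a b ha hb => hS a b ?_ ?_)
      (θ - ψ (k * δ)) (k * δ) _ ((filter_subset _ _).trans hB) fun q hq => ?_
    · rw [le_div_iff₀ hδ]
      nlinarith [mul_le_mul_of_nonneg_right ha hδ.le]
    · rw [le_div_iff₀ hδ, mul_assoc]
      exact (mul_le_mul_of_nonneg_right hb (by positivity)).trans e2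
    · obtain ⟨q1, q2⟩ := mem_filter.1 hq
      have g1 : |∑ i, w (q i) - k * δ| ≤ δ := by
        have g3 := abs_sub_round ((∑ i, w (q i)) / δ)
        rw [q2, show (∑ i, w (q i)) / δ - k = (∑ i, w (q i) - k * δ) / δ by field_simp, abs_div,
          abs_of_pos hδ, div_le_iff₀ hδ] at g3
        linarith
      have g2 := abs_le.1 ((hψ _ _).trans g1)
      have g3 := abs_le.1 (hB' q q1)
      refine ⟨le_trans (mul_le_mul_of_nonneg_left (abs_le.2 ⟨?_, ?_⟩) (by linarith)) e1,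
        le_trans (mul_le_mul_of_nonneg_left ?_ (by linarith)) e2⟩
      · linarith [g2.2, g3.1]
      · linarith [g2.1, g3.2]
      · rw [abs_mul, abs_of_pos hy]
        gcongr
  · generalize ⌊J * (1 / (y * δ)) + 1 / 2⌋₊ = n at f0
    rw [Int.card_Icc, show ((n : ℤ) + 1 - -(n : ℤ)).toNat = 2 * n + 1 by omega, nsmul_eq_mul]
    have g1 : ((2 * n + 1 : ℕ) : ℝ) ≤ 4 * J * N2 := by
      push_cast
      nlinarith [mul_le_mul_of_nonneg_left c2 (show (0 : ℝ) ≤ J by linarith)]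
    have g2 : 1 ≤ N1 * (2 * δ) := (div_le_iff₀ (by positivity)).1 c1
    calc _ ≤ 4 * J * N2 * (256 * W / (s * N1 * N2)) * (N1 * (2 * δ)) :=
          le_trans (by gcongr) (le_mul_of_one_le_right (by positivity) g2)
      _ = _ := by field_simp; ring

end box

theorem log_sub_le {a b : ℝ} (ha : 0 < a) (hb : 0 < b) : Real.log b - Real.log a ≤ (b - a) / a := by
  rw [← Real.log_div hb.ne' ha.ne', sub_div, div_self ha.ne']
  exact Real.log_le_sub_one_of_pos (by positivity)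

theorem lip {t : ℝ} (ht : 0 ≤ t) (a b : ℝ) :
    |Real.log (1 + t * Real.exp a) - Real.log (1 + t * Real.exp b)| ≤ |a - b| := by
  have key : ∀ a b : ℝ, Real.log (1 + t * Real.exp a) - Real.log (1 + t * Real.exp b) ≤ |a - b| :=
    fun a b => by
      rw [sub_le_iff_le_add, ← Real.log_exp |a - b|, ← Real.log_mul (by positivity) (by positivity)]
      refine Real.log_le_log (by positivity) ?_
      have h1 := Real.one_le_exp (abs_nonneg (a - b))
      have h2 : Real.exp a ≤ Real.exp |a - b| * Real.exp b := by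
        rw [← Real.exp_add, Real.exp_le_exp]
        linarith [le_abs_self (a - b)]
      nlinarith [mul_le_mul_of_nonneg_left h2 ht]
  exact abs_le.2 ⟨by linarith [key b a, abs_sub_comm a b], key a b⟩

/-- The integers between two powers of two, with their dyadic scale. -/
def blk (κ1 κ2 : ℕ) : Finset (Σ _ : ℕ, ℕ) := (Ico κ1 κ2).sigma fun κ => Ioc (2 ^ κ) (2 * 2 ^ κ)

theorem blk_mem {κ1 κ2 : ℕ} {i : Σ _ : ℕ, ℕ} (h : i ∈ blk κ1 κ2) :
    (2 : ℝ) ^ κ1 ≤ 2 ^ i.1 ∧ (2 : ℝ) ^ i.1 + 1 ≤ i.2 := by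
  obtain ⟨h1, h2⟩ := mem_sigma.1 h
  exact ⟨pow_le_pow_right₀ one_le_two (mem_Ico.1 h1).1, by exact_mod_cast (mem_Ioc.1 h2).1⟩

/-- The count of tuples. -/
def Tup (c C Y0 : ℝ) : Prop := ∀ (e K δ x X r F : ℝ) (κ1 κ2 J : ℕ), (e = 1 ∨ e = -1) →
    Y0 ≤ 2 ^ κ1 → κ1 ≤ κ2 → 1000 ≤ K → 10 ^ 6 * K * Real.log K ≤ κ1 * Real.log 2 → 0 < δ → δ ≤ 1 →
    1 / δ ≤ Real.exp (K * (κ1 * Real.log 2)) → 4 * K ^ 3 ≤ c * J → 0 < x → x ≤ X → X ≤ 2 * x →
    0 < r → 0 ≤ F → ∀ B ⊆ Fintype.piFinset fun _ : Fin J => blk κ1 κ2,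
      (∀ q ∈ B, X ≤ r * ∏ i, ((q i).2 : ℝ) + F * ∏ i, (((q i).2 : ℝ) + e) ∧
        r * ∏ i, ((q i).2 : ℝ) + F * ∏ i, (((q i).2 : ℝ) + e) ≤ X + x * δ) →
      (B.card : ℝ) ≤ x * δ / r * (10 ^ 5 * J * (C * (κ2 - κ1)) ^ J * (2 ^ κ2 / 2 ^ κ1))

theorem tup : ∃ c C Y0 : ℝ, 0 < c ∧ c ≤ 1 ∧ 1 ≤ C ∧ Tup c C Y0 := by
  obtain ⟨c, C, Y0, c0, c1, C1, H⟩ := expo
  refine ⟨c, C, Y0, c0, c1, C1, ?_⟩
  intro e K δ x X r F κ1 κ2 J he hY hκ hK hL δ0 δ1 hδ hJ x0 x1 x2 r0 F0 B hB hB'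
  have hK3 : 0 < K ^ 3 := by positivity
  have hJ1 : 1 ≤ J := by
    by_contra h
    rw [show J = 0 by omega] at hJ
    simp only [Nat.cast_zero, mul_zero] at hJ
    linarith
  have hκ' : (0 : ℝ) ≤ κ2 - κ1 := sub_nonneg.2 (by exact_mod_cast hκ)
  have y1 : (1 : ℝ) ≤ 2 ^ κ1 := one_le_pow₀ one_le_two
  have y2 : (2 : ℝ) ^ κ1 ≤ 2 ^ κ2 := pow_le_pow_right₀ one_le_two hκ
  have hq : ∀ i ∈ blk κ1 κ2, (2 : ℝ) ^ κ1 + 1 ≤ i.2 ∧ (2 : ℝ) ^ κ1 ≤ i.2 + e := fun i hi => by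
    obtain ⟨h1, h2⟩ := blk_mem hi
    exact ⟨by linarith, by rcases he with rfl | rfl <;> linarith⟩
  have key := cover (blk κ1 κ2) (fun i => ((2 : ℝ) ^ i.1)⁻¹) (fun i => Real.log i.2)
    (fun i => Real.log (i.2 + e) - Real.log i.2) (y := 2 ^ κ1) (s := 2 ^ κ1 / 2 ^ κ2)
    (W := 16 * (C * (κ2 - κ1)) ^ J) (fun _ => by positivity) (by positivity)
    ((div_le_one (by positivity)).2 y2) (by positivity) δ0 (by positivity) hJ1 (fun i hi => ?_)
    (fun a b ha hb => ?_) _ (lip (t := F / r) (by positivity)) (Real.log (X / r)) B hB fun q hq' => ?_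
  · have h1 : (B.card : ℝ) ≤ 3 * x / r * ∑ q ∈ B, ∏ i, ((2 : ℝ) ^ (q i).1)⁻¹ := by
      rw [card_eq_sum_ones, Nat.cast_sum, mul_sum]
      refine sum_le_sum fun q hq' => ?_
      have m := Fintype.mem_piFinset.1 (hB hq')
      have h2 : ∏ i, (2 : ℝ) ^ (q i).1 ≤ ∏ i, ((q i).2 : ℝ) :=
        prod_le_prod (fun _ _ => by positivity) fun i _ => by linarith [(blk_mem (m i)).2]
      have h3 : 0 ≤ F * ∏ i, (((q i).2 : ℝ) + e) :=
        mul_nonneg F0 (prod_nonneg fun i _ => by linarith [(hq _ (m i)).2])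
      rw [prod_inv_distrib, ← div_eq_mul_inv, Nat.cast_one, div_div, le_div_iff₀ (by positivity)]
      nlinarith [(hB' q hq').2, mul_le_mul_of_nonneg_left h2 r0.le]
    refine h1.trans ((mul_le_mul_of_nonneg_left key (by positivity)).trans ?_)
    rw [show 3 * x / r * (2048 * J * δ * (16 * (C * (κ2 - κ1)) ^ J) / (2 ^ κ1 / 2 ^ κ2)) =
      x * δ / r * (98304 * J * (C * (κ2 - κ1)) ^ J * (2 ^ κ2 / 2 ^ κ1)) by field_simp; ring]
    gcongr
    norm_num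
  · obtain ⟨h1, h2⟩ := hq i hi
    have h3 := log_sub_le (a := i.2) (b := i.2 + e) (by linarith) (by linarith)
    have h4 := log_sub_le (b := i.2) (a := i.2 + e) (by linarith) (by linarith)
    rw [← le_div_iff₀' (by positivity), abs_le]
    constructor
    · refine le_trans (neg_le_neg (le_trans h4 ?_)) (by rw [neg_sub])
      rw [div_le_div_iff₀ (by linarith) (by positivity)]
      rcases he with rfl | rfl <;> linarith
    · refine h3.trans ?_
      rw [div_le_div_iff₀ (by linarith) (by positivity)]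
      rcases he with rfl | rfl <;> linarith
  · obtain ⟨T, hT⟩ : ∃ T, T = max 1 (max |a| (2 ^ κ1 / 2 ^ κ2 * |b|)) := ⟨_, rfl⟩
    have t0 : 1 ≤ T := hT ▸ le_max_left _ _
    have t1 : |a| ≤ T := hT ▸ (le_max_left _ _).trans (le_max_right _ _)
    have t2 : 2 ^ κ1 / 2 ^ κ2 * |b| ≤ T := hT ▸ (le_max_right _ _).trans (le_max_right _ _)
    have h1 : ‖∑ i ∈ blk κ1 κ2, (((2 : ℝ) ^ i.1)⁻¹ : ℝ) * ee (a * Real.log i.2 +
        b * 2 ^ κ1 * (Real.log (i.2 + e) - Real.log i.2))‖ ≤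
        C * (κ2 - κ1) * Real.exp (-(c / K ^ 3 * Real.log T)) := by
      rw [blk, sum_sigma]
      refine (norm_sum_le_of_le _ (n := fun _ => C * Real.exp (-(c / K ^ 3 * Real.log T)))
        fun κ hκ => ?_).trans_eq (by simp [Nat.cast_sub hκ]; ring)
      obtain ⟨k1, k2⟩ := mem_Ico.1 hκ
      have k3 : (2 : ℝ) ^ κ1 ≤ 2 ^ κ := pow_le_pow_right₀ one_le_two k1
      have k4 : (2 : ℝ) ^ κ ≤ 2 ^ κ2 := pow_le_pow_right₀ one_le_two k2.le
      have k5 : κ1 * Real.log 2 ≤ Real.log (2 ^ κ) := by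
        rw [← Real.log_pow]
        exact Real.log_le_log (by positivity) k3
      have k6 : 1 / δ ≤ Real.exp (K * Real.log (2 ^ κ)) := hδ.trans (by gcongr)
      have k7 : |b * 2 ^ κ1| = |b| * 2 ^ κ1 := by rw [abs_mul, abs_of_pos (a := 2 ^ κ1) (by positivity)]
      have k8 := H e a (b * 2 ^ κ1) K T (2 ^ κ) he (by push_cast; linarith) hK
        (by push_cast; linarith) (by push_cast; linarith)
        (by push_cast; rw [k7]; exact (div_le_self (by positivity) (by linarith)).trans (hb.trans k6))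
        t0 (by
          rw [hT, k7]
          push_cast
          refine max_le_max le_rfl (max_le_max le_rfl ?_)
          rw [mul_comm, mul_div_assoc]
          gcongr)
      simp only
      rw [← mul_sum, norm_mul, Complex.norm_real, Real.norm_of_nonneg (by positivity),
        inv_mul_le_iff₀ (by positivity)]
      push_cast at k8
      exact k8.trans_eq (by ring)
    refine (pow_le_pow_left₀ (norm_nonneg _) h1 J).trans ?_
    have h2 : Real.exp (-(c / K ^ 3 * Real.log T)) ^ J ≤ (T ^ 4)⁻¹ := by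
      rw [← Real.exp_nat_mul, ← Real.exp_log (show 0 < T ^ 4 by positivity), ← Real.exp_neg,
        Real.exp_le_exp, Real.log_pow, mul_neg, neg_le_neg_iff, ← mul_assoc]
      refine mul_le_mul_of_nonneg_right ?_ (Real.log_nonneg t0)
      rw [← mul_div_assoc, le_div_iff₀ hK3]
      push_cast
      linarith
    calc _ = (C * (κ2 - κ1)) ^ J * Real.exp (-(c / K ^ 3 * Real.log T)) ^ J := mul_pow _ _ _
      _ ≤ (C * (κ2 - κ1)) ^ J * (T ^ 4)⁻¹ := by gcongr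
      _ = 16 * (C * (κ2 - κ1)) ^ J * ((T + T) ^ 2)⁻¹ * ((T + T) ^ 2)⁻¹ := by field_simp; ring
      _ ≤ _ := by gcongr; linarith
  · have m := Fintype.mem_piFinset.1 (hB hq')
    have p1 : ∀ i ∈ (univ : Finset (Fin J)), (0 : ℝ) < (q i).2 := fun i _ => by
      linarith [(hq _ (m i)).1]
    have p2 : ∀ i ∈ (univ : Finset (Fin J)), (0 : ℝ) < (q i).2 + e := fun i _ => by
      linarith [(hq _ (m i)).2]
    have p3 := prod_pos p1
    have p4 := prod_pos p2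
    obtain ⟨h1, h2⟩ := hB' q hq'
    rw [sum_sub_distrib, ← Real.log_prod fun i hi => (p1 i hi).ne',
      ← Real.log_prod fun i hi => (p2 i hi).ne', Real.exp_sub, Real.exp_log p3, Real.exp_log p4,
      ← Real.log_mul p3.ne' (by positivity)]
    generalize ∏ i, ((q i).2 : ℝ) = P at *
    generalize ∏ i, (((q i).2 : ℝ) + e) = Q at *
    rw [show P * (1 + F / r * (Q / P)) = (r * P + F * Q) / r by field_simp]
    have X0 : 0 < X := by linarith
    have h3 := Real.log_le_log (by positivity) (div_le_div_of_nonneg_right h1 r0.le)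
    rw [abs_of_nonneg (by linarith)]
    refine (log_sub_le (by positivity) (by positivity)).trans ?_
    rw [← sub_div, div_div_div_cancel_right₀ r0.ne', div_le_iff₀ X0]
    nlinarith

end Pool.Agent.P.MP_9d1108_nt.Sw
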