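import Pool.Agent.P.MP_9d1108_nt.Sw.Box
import Pool.Agent.P.MP_8be758_nt.Avg.NU
import Pool.Agent.P.MP_8be758_nt.Avg.GT
import Pool.Agent.P.MP_8be758_nt.Avg.FAR

/-! The classes of integers `n` with `n + f n` in a short interval. -/

namespace Pool.Agent.P.MP_9d1108_nt.Sw

open Finset
open Pool.Agent.P.MP_8be758_nt.Avg (PL Rough mem_PL gt_up gt_cover gt_log t_RC t_NU t_FAR t_GT)

/-- Multiplicative functions with `f p = p + e` at all primes, for a sign `e`. -/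
structure Mul (f : ℕ → ℕ) (e : ℝ) : Prop where
  he : e = 1 ∨ e = -1
  one : f 1 = 1
  mul : ∀ a b, a.Coprime b → f (a * b) = f a * f b
  prime : ∀ p, p.Prime → (f p : ℝ) = p + e

variable {f : ℕ → ℕ} {e : ℝ}

theorem Mul.prod (h : Mul f e) (Q : Finset ℕ) (hQ : ∀ p ∈ Q, p.Prime) :
    (f (∏ p ∈ Q, p) : ℝ) = ∏ p ∈ Q, ((p : ℝ) + e) := by
  induction Q using Finset.induction_on with
  | empty => simp [h.one]
  | insert a s ha ih =>
    have h1 := hQ a (mem_insert_self _ _)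
    have h2 : ∀ p ∈ s, p.Prime := fun p hp => hQ p (mem_insert_of_mem hp)
    rw [prod_insert ha, prod_insert ha, h.mul _ _ (Nat.Coprime.prod_right fun p hp =>
      (Nat.coprime_primes h1 (h2 p hp)).2 fun e => ha (e ▸ hp)), Nat.cast_mul, h.prime a h1, ih h2]

theorem fib {β : Type} [DecidableEq β] (S : Finset ℕ) (a : ℕ → ℕ) (b : ℕ → β) (g : ℕ → β → ℕ)
    (h : ∀ n ∈ S, n = g (a n) (b n)) {W : ℝ}
    (hW : ∀ r ∈ S.image a, (((S.filter fun n => a n = r).image b).card : ℝ) ≤ W * (1 / r)) :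
    (S.card : ℝ) ≤ W * ∑ r ∈ S.image a, 1 / (r : ℝ) := by
  rw [card_eq_sum_card_image a S, Nat.cast_sum, mul_sum]
  refine sum_le_sum fun r hr => le_trans (le_of_eq ?_) (hW r hr)
  rw [card_image_of_injOn fun n hn n' hn' e => ?_]
  obtain ⟨h1, h2⟩ := mem_filter.1 (mem_coe.1 hn)
  obtain ⟨h3, h4⟩ := mem_filter.1 (mem_coe.1 hn')
  rw [h n h1, h n' h3, h2, h4, e]

theorem sq_count (S : Finset ℕ) (N : ℕ) {Δ : ℝ} (hΔ : 0 < Δ)
    (h : ∀ n ∈ S, n ∈ Ioc 0 N ∧ ∃ k : ℕ, Δ < k ∧ k ^ 2 ∣ n) : (S.card : ℝ) ≤ N * (2 / Δ) := by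
  have h1 : S ⊆ (Ioo ⌊Δ⌋₊ (N + 1)).biUnion fun k => (Ioc 0 N).filter fun n => k ^ 2 ∣ n :=
    fun n hn => by
      obtain ⟨h1, k, h2, h3⟩ := h n hn
      have h4 := Nat.le_of_dvd (mem_Ioc.1 h1).1 h3
      refine mem_biUnion.2 ⟨k, mem_Ioo.2 ⟨(Nat.floor_lt hΔ.le).2 h2, ?_⟩, mem_filter.2 ⟨h1, h3⟩⟩
      nlinarith [(mem_Ioc.1 h1).2]
  have h2 : (S.card : ℝ) ≤ ∑ k ∈ Ioo ⌊Δ⌋₊ (N + 1), N * ((k : ℝ) ^ 2)⁻¹ := by
    refine le_trans (Nat.cast_le.2 ((card_le_card h1).trans card_biUnion_le)) ?_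
    rw [Nat.cast_sum]
    refine sum_le_sum fun k _ => ?_
    rw [Nat.Ioc_filter_dvd_card_eq_div, ← div_eq_mul_inv, ← Nat.cast_pow]
    exact Nat.cast_div_le
  rw [← mul_sum] at h2
  refine h2.trans (mul_le_mul_of_nonneg_left ((sum_Ioo_inv_sq_le _ _).trans ?_) (Nat.cast_nonneg _))
  exact div_le_div_of_nonneg_left (by norm_num) hΔ (Nat.lt_floor_add_one Δ).le

/-- The integer `r` has a squarefree `y`-smooth divisor of size at least `exp V`. -/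
def Big (y V : ℝ) (r : ℕ) : Prop := ∃ E ⊆ PL y, V ≤ ∑ p ∈ E, Real.log p ∧ (∏ p ∈ E, p) ∣ r

theorem rankin (S : Finset ℕ) (N : ℕ) {y η lam V : ℝ} (hy : 2 ≤ y) (hη : 0 ≤ η) (h0 : 0 < lam)
    (hl : η * Real.log y ≤ Real.log lam) (h : ∀ r ∈ S, r ∈ Ioc 0 N ∧ Big y V r) :
    ∑ r ∈ S, 1 / (r : ℝ) ≤
      Real.exp (-(η * V) + lam * Real.log (450 * Real.log y)) * (1 + Real.log N) := by
  obtain ⟨G, hG⟩ : ∃ G, G = (PL y).powerset.filter fun E => V ≤ ∑ p ∈ E, Real.log (p : ℕ) := ⟨_, rfl⟩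
  have h1 : S ⊆ image (fun z : Finset ℕ × ℕ => (∏ p ∈ z.1, p) * z.2) (G ×ˢ Ioc 0 N) := fun r hr => by
    obtain ⟨h1, E, h2, h3, c, rfl⟩ := h r hr
    obtain ⟨h4, h5⟩ := mem_Ioc.1 h1
    exact mem_image.2 ⟨(E, c), mem_product.2 ⟨hG ▸ mem_filter.2 ⟨mem_powerset.2 h2, h3⟩, mem_Ioc.2
      ⟨Nat.pos_of_mul_pos_left h4,
        (Nat.le_mul_of_pos_left _ (Nat.pos_of_mul_pos_right h4)).trans h5⟩⟩, rfl⟩
  have h2 : ∑ r ∈ S, 1 / (r : ℝ) ≤ (∑ E ∈ G, ∏ p ∈ E, 1 / (p : ℝ)) * ∑ c ∈ Ioc 0 N, 1 / (c : ℝ) := by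
    refine ((sum_le_sum_of_subset_of_nonneg h1 fun _ _ _ => by positivity).trans
      (sum_image_le_of_nonneg fun _ _ => by positivity)).trans_eq ?_
    rw [sum_mul_sum, sum_product]
    refine sum_congr rfl fun E _ => sum_congr rfl fun c _ => ?_
    push_cast
    simp only [one_div, prod_inv_distrib, mul_inv]
  have h3 : ∑ E ∈ G, ∏ p ∈ E, 1 / (p : ℝ) ≤
      Real.exp (-(η * V)) * ∏ p ∈ PL y, (1 + lam * (1 / (p : ℝ))) := by
    rw [prod_one_add, mul_sum]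
    refine le_trans (sum_le_sum fun E hE => ?_) (sum_le_sum_of_subset_of_nonneg
      (hG ▸ filter_subset _ _) fun _ _ _ => by positivity)
    obtain ⟨h4, h5⟩ := mem_filter.1 (hG ▸ hE)
    have h6 : Real.exp (η * V) ≤ ∏ _p ∈ E, lam := by
      refine (Real.exp_le_exp.2 (mul_le_mul_of_nonneg_left h5 hη)).trans ?_
      rw [mul_sum, Real.exp_sum]
      refine prod_le_prod (fun _ _ => (Real.exp_pos _).le) fun p hp => ?_
      obtain ⟨h7, h8⟩ := (mem_PL (by linarith)).1 (mem_powerset.1 h4 hp)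
      rw [← Real.le_log_iff_exp_le h0]
      exact (mul_le_mul_of_nonneg_left (Real.log_le_log (by exact_mod_cast h8.pos) h7) hη).trans hl
    rw [prod_mul_distrib, ← mul_assoc, Real.exp_neg]
    refine le_mul_of_one_le_left (by positivity) ?_
    rwa [← div_eq_inv_mul, one_le_div (Real.exp_pos _)]
  have h4 : ∏ p ∈ PL y, (1 + lam * (1 / (p : ℝ))) ≤ Real.exp (lam * Real.log (450 * Real.log y)) := by
    have h5 := (Real.le_log_iff_exp_le (by linarith [gt_log hy])).2 (gt_up hy)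
    refine le_trans ?_ (Real.exp_le_exp.2 (mul_le_mul_of_nonneg_left h5 h0.le))
    rw [mul_sum, Real.exp_sum]
    exact prod_le_prod (fun q _ => by positivity) fun q _ => by
      rw [add_comm]; exact Real.add_one_le_exp _
  rw [Real.exp_add]
  exact h2.trans (mul_le_mul (h3.trans (by gcongr)) (Pool.Agent.P.MP_e86632_nt.sum_inv_le N)
    (sum_nonneg fun _ _ => by positivity) (by positivity))

theorem card_le_log (B : Finset ℕ) (hB : ∀ p ∈ B, p.Prime) :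
    (B.card : ℝ) ≤ 2 * Real.log (∏ p ∈ B, p : ℕ) := by
  have h1 : 2 ^ B.card ≤ ∏ p ∈ B, p := pow_card_le_prod B _ 2 fun p hp => (hB p hp).two_le
  have h2 := Real.log_le_log (by positivity) (show (2 : ℝ) ^ B.card ≤ (∏ p ∈ B, p : ℕ) by
    exact_mod_cast h1)
  rw [Real.log_pow] at h2
  nlinarith [Real.log_two_gt_d9, Nat.cast_nonneg (α := ℝ) B.card]

theorem Mul.near (h : Mul f e) (B : Finset ℕ) {z δ : ℝ} (hz : 0 < z) (hδ : δ ≤ 1)
    (hB : ∀ p ∈ B, p.Prime ∧ z < p) (hc : 2 * (B.card : ℝ) ≤ δ * z) :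
    |(f (∏ p ∈ B, p) : ℝ) - (∏ p ∈ B, p : ℕ)| ≤ δ * (∏ p ∈ B, p : ℕ) := by
  have h1 := B.norm_prod_one_add_sub_one_le fun p => e / p
  have h2 : ∑ p ∈ B, ‖e / p‖ ≤ δ / 2 := by
    refine (sum_le_card_nsmul _ _ (1 / z) fun p hp => ?_).trans ?_
    · rw [Real.norm_eq_abs, abs_div, Nat.abs_cast, show |e| = 1 by rcases h.he with rfl | rfl <;> simp]
      exact one_div_le_one_div_of_le hz (hB p hp).2.le
    · rw [nsmul_eq_mul, mul_one_div, div_le_iff₀ hz]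
      linarith
  have h3 : 0 ≤ ∑ p ∈ B, ‖e / p‖ := sum_nonneg fun _ _ => norm_nonneg _
  have h4 := Real.abs_exp_sub_one_le (x := ∑ p ∈ B, ‖e / p‖) (by rw [abs_of_nonneg h3]; linarith)
  rw [abs_of_nonneg h3] at h4
  have h5 : ∏ p ∈ B, ((p : ℝ) + e) = (∏ p ∈ B, (1 + e / p)) * (∏ p ∈ B, p : ℕ) := by
    rw [Nat.cast_prod, ← prod_mul_distrib]
    refine prod_congr rfl fun p hp => ?_
    have : (p : ℝ) ≠ 0 := by exact_mod_cast (hB p hp).1.ne_zero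
    field_simp
  rw [h.prod B fun p hp => (hB p hp).1, h5, ← sub_one_mul, abs_mul, Nat.abs_cast]
  exact mul_le_mul_of_nonneg_right (h1.trans (by linarith [le_abs_self (Real.exp
    (∑ p ∈ B, ‖e / p‖) - 1)])) (Nat.cast_nonneg _)

theorem interval {x X δ a b F G : ℝ} (x0 : 0 < x) (x2 : X ≤ 2 * x) (δ0 : 0 < δ) (δ1 : δ ≤ 1 / 2)
    (a0 : 0 < a) (b0 : 0 ≤ b) (F0 : 0 ≤ F) (hG : |G - b| ≤ δ * b) (h1 : X ≤ a * b + F * G)
    (h2 : a * b + F * G ≤ X + x * δ) : (X - 3 * (x * δ)) / (a + F) < b ∧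
      b ≤ (X - 3 * (x * δ)) / (a + F) + 10 * (x * δ) / a := by
  have g1 := mul_le_mul_of_nonneg_left (abs_le.1 hG).1 F0
  have g2 := mul_le_mul_of_nonneg_left (abs_le.1 hG).2 F0
  have g3 : 0 < x * δ := by positivity
  have g4 : 0 ≤ a * b := by positivity
  have g6 : δ * (F * b) ≤ 1 / 2 * (F * b) := by gcongr
  have g7 : x * δ ≤ x * (1 / 2) := by gcongr
  have g8 : δ * (F * b) ≤ δ * (5 * x) := mul_le_mul_of_nonneg_left (by linarith) δ0.le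
  constructor
  · rw [div_lt_iff₀ (by positivity)]
    by_contra hc
    have g9 : δ * (F * b) ≤ δ * (2 * x) := mul_le_mul_of_nonneg_left (by linarith) δ0.le
    linarith
  · refine le_trans ?_ (add_le_add_right (div_le_div_of_nonneg_left (by positivity) a0
      (le_add_of_nonneg_right F0)) _)
    rw [← add_div, le_div_iff₀ (by positivity)]
    linarith

/-- The smooth part of `n` is small. -/
def Sv (z V : ℝ) (n : ℕ) : Prop := ∃ (k : ℕ) (E B : Finset ℕ), 0 < k ∧ (k : ℝ) ≤ z ∧ E ⊆ PL z ∧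
  (∀ p ∈ B, p.Prime ∧ z < p) ∧ n = k ^ 2 * (∏ p ∈ E, p) * ∏ p ∈ B, p ∧
    ((k ^ 2 * ∏ p ∈ E, p : ℕ) : ℝ) ≤ V

theorem sieve_count : ∃ C : ℝ, 0 < C ∧ ∀ (f : ℕ → ℕ) (e x X δ z V : ℝ) (S : Finset ℕ), Mul f e →
    2 ≤ z → 0 < x → x ≤ X → X ≤ 2 * x → 0 < δ → δ ≤ 1 / 2 → 4 * Real.log (3 * x) ≤ δ * z →
    z ^ 5 * V ≤ x * δ → (∀ n ∈ S, X ≤ n + (f n : ℝ) ∧ n + (f n : ℝ) ≤ X + x * δ ∧ Sv z V n) →
    (S.card : ℝ) ≤ C * (x * δ) := by
  obtain ⟨C, C0, H⟩ := t_RC (t_NU t_FAR t_GT)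
  refine ⟨9000 * C, by positivity, fun f e x X δ z V S hf hz x0 x1 x2 δ0 δ1 hl hV h => ?_⟩
  have lz := gt_log hz
  have key : ∀ n ∈ S, ∃ a b : ℕ, n = a * b ∧ (0 < a ∧ (a : ℝ) ≤ V ∧
      ∃ k ∈ Icc 1 ⌊z⌋₊, ∃ E ⊆ PL z, ∃ q ∈ ({1} : Finset ℕ), k ^ 2 * (∏ p ∈ E, p) * q = a) ∧
      Rough z b ∧ (X - 3 * (x * δ)) / (a + (f a : ℝ)) < b ∧
        (b : ℝ) ≤ (X - 3 * (x * δ)) / (a + (f a : ℝ)) + 10 * (x * δ) / a := fun n hn => by
    obtain ⟨h1, h2, k, E, B, k0, k1, hE, hB, hn, ha⟩ := h n hn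
    have hr : ∀ p : ℕ, p.Prime → p ∣ ∏ p ∈ B, p → z < p := fun p hp hd => by
      obtain ⟨q, hq, e⟩ := (hp.prime.dvd_finsetProd_iff _).1 hd
      rw [(Nat.prime_dvd_prime_iff_eq hp (hB q hq).1).1 e]
      exact (hB q hq).2
    have hE' := fun p hp => (mem_PL (by linarith)).1 (hE (x := p) hp)
    have a0 : 0 < k ^ 2 * ∏ p ∈ E, p := mul_pos (by positivity) (prod_pos fun p hp => (hE' p hp).2.pos)
    have hc : (k ^ 2 * ∏ p ∈ E, p).Coprime (∏ p ∈ B, p) :=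
      Nat.Coprime.symm (Nat.coprime_of_dvd fun p hp h3 h4 => by
        refine (hr p hp h3).not_ge ?_
        rcases hp.dvd_mul.1 h4 with h5 | h5
        · exact le_trans (by exact_mod_cast Nat.le_of_dvd k0 (hp.dvd_of_dvd_pow h5)) k1
        · obtain ⟨q, hq, e⟩ := (hp.prime.dvd_finsetProd_iff _).1 h5
          rw [(Nat.prime_dvd_prime_iff_eq hp (hE' q hq).2).1 e]
          exact (hE' q hq).1)
    have b0 : 0 < ∏ p ∈ B, p := prod_pos fun p hp => (hB p hp).1.pos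
    have b1 := card_le_log B fun p hp => (hB p hp).1
    have b2 : ((∏ p ∈ B, p : ℕ) : ℝ) ≤ 3 * x := by
      have : ((∏ p ∈ B, p : ℕ) : ℝ) ≤ n := by
        rw [hn]
        exact_mod_cast Nat.le_mul_of_pos_left _ a0
      nlinarith [Nat.cast_nonneg (α := ℝ) (f n)]
    have b3 := hf.near B (by linarith) (by linarith) hB (δ := δ) (by
      linarith [Real.log_le_log (by exact_mod_cast b0) b2])
    refine ⟨_, _, hn, ⟨a0, ha, k, mem_Icc.2 ⟨k0, Nat.le_floor k1⟩, E, hE, 1, mem_singleton_self 1,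
      mul_one _⟩, hr, ?_⟩
    rw [hn, hf.mul _ _ hc, Nat.cast_mul (k ^ 2 * ∏ p ∈ E, p), Nat.cast_mul (f _)] at h1 h2
    exact interval x0 x2 δ0 δ1 (by exact_mod_cast a0) (Nat.cast_nonneg _) (Nat.cast_nonneg _) b3 h1 h2
  choose! a b h1 h2 h3 h4 using key
  refine (fib S a b (· * ·) h1 (W := C * (10 * (x * δ)) / Real.log z) fun r hr => ?_).trans ?_
  · obtain ⟨n, hn, rfl⟩ := mem_image.1 hr
    have a1 : (0 : ℝ) < a n := by exact_mod_cast (h2 n hn).1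
    refine (H z ((X - 3 * (x * δ)) / (a n + (f (a n) : ℝ))) (10 * (x * δ) / a n) _ hz ?_
      fun m hm => ?_).trans_eq (by ring)
    · rw [le_div_iff₀ a1]
      nlinarith [mul_le_mul_of_nonneg_left (h2 n hn).2.1 (show 0 ≤ z ^ 5 by positivity),
        mul_pos x0 δ0]
    · obtain ⟨n', hn', rfl⟩ := mem_image.1 hm
      obtain ⟨e1, e2⟩ := mem_filter.1 hn'
      exact ⟨e2 ▸ (h4 n' e1).1, e2 ▸ (h4 n' e1).2, h3 n' e1⟩
  · have h5 := gt_cover (S.image a) (PL z) {1} ⌊z⌋₊ fun r hr => by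
      obtain ⟨n, hn, rfl⟩ := mem_image.1 hr
      exact (h2 n hn).2.2
    rw [sum_singleton, Nat.cast_one, div_one, mul_one] at h5
    refine (mul_le_mul_of_nonneg_left (h5.trans (mul_le_mul_of_nonneg_left (gt_up hz) zero_le_two))
      (by positivity)).trans_eq ?_
    field_simp
    norm_num

/-- The integer `n` has `J` simple prime factors of the same scale and a large smooth part. -/
def Sc (κ1 κ2 J : ℕ) (V : ℝ) (n : ℕ) : Prop := ∃ Q E : Finset ℕ, Q.card = J ∧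
  (∀ p ∈ Q, p.Prime ∧ 2 ^ κ1 < p ∧ p ≤ 2 ^ κ2 ∧ p ∣ n ∧ ¬p ^ 2 ∣ n) ∧ E ⊆ PL (2 ^ κ2) ∧
    Disjoint E Q ∧ V ≤ ∑ p ∈ E, Real.log p ∧ (∏ p ∈ E, p) ∣ n

theorem Sc.tuple (hf : Mul f e) {κ1 κ2 J n : ℕ} {V : ℝ} (h : Sc κ1 κ2 J V n) :
    ∃ (r : ℕ) (q : Fin J → Σ _ : ℕ, ℕ), n = r * ∏ i, (q i).2 ∧ Big (2 ^ κ2) V r ∧
      (q ∈ Fintype.piFinset fun _ => blk κ1 κ2) ∧ (f n : ℝ) = f r * ∏ i, (((q i).2 : ℝ) + e) := by
  obtain ⟨Q, E, rfl, hQ, hE, hd, hV, hn⟩ := h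
  obtain ⟨r, hr⟩ := prod_primes_dvd n (fun p hp => (hQ p hp).1.prime) fun p hp => (hQ p hp).2.2.2.1
  have e1 : ∀ {M : Type} [CommMonoid M] (g : ℕ → M),
      ∏ i, g (Q.equivFin.symm i) = ∏ p ∈ Q, g p := fun g =>
    (Q.equivFin.symm.prod_comp fun p : Q => g p).trans (prod_coe_sort Q g)
  have hc : (∏ p ∈ Q, p).Coprime r := Nat.Coprime.prod_left fun p hp =>
    (hQ p hp).1.coprime_iff_not_dvd.2 fun h1 => (hQ p hp).2.2.2.2
      (by rw [hr, sq]; exact mul_dvd_mul (dvd_prod_of_mem _ hp) h1)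
  refine ⟨r, fun i => ⟨Nat.log 2 (Q.equivFin.symm i - 1), Q.equivFin.symm i⟩, ?_,
    ⟨E, hE, hV, ?_⟩, Fintype.mem_piFinset.2 fun i => ?_, ?_⟩
  · rw [hr, mul_comm, ← e1 fun p => p]
  · refine Nat.Coprime.dvd_of_dvd_mul_left (Nat.Coprime.prod_left fun p hp =>
      Nat.Coprime.prod_right fun p' hp' => ?_) (hr ▸ hn)
    exact (Nat.coprime_primes ((mem_PL (by positivity)).1 (hE hp)).2 (hQ p' hp').1).2
      fun e => disjoint_left.1 hd hp (e ▸ hp')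
  · obtain ⟨-, h1, h2, -⟩ := hQ _ (Q.equivFin.symm i).2
    generalize (Q.equivFin.symm i : ℕ) = p at h1 h2
    have h0 : 0 < 2 ^ κ1 := by positivity
    have h3 := Nat.pow_log_le_self 2 (show p - 1 ≠ 0 by omega)
    have h4 := Nat.lt_pow_succ_log_self one_lt_two (p - 1)
    rw [pow_succ] at h4
    exact mem_sigma.2 ⟨mem_Ico.2 ⟨Nat.le_log_of_pow_le one_lt_two (by omega),
      Nat.log_lt_of_lt_pow (by omega : p - 1 ≠ 0) (by omega : p - 1 < 2 ^ κ2)⟩, mem_Ioc.2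
        ⟨(by omega : 2 ^ Nat.log 2 (p - 1) < p), (by omega : p ≤ 2 * 2 ^ Nat.log 2 (p - 1))⟩⟩
  · rw [hr, hf.mul _ _ hc, Nat.cast_mul, hf.prod Q fun p hp => (hQ p hp).1, mul_comm,
      ← e1 fun p => (p : ℝ) + e]

theorem smooth_count {c C Y0 K δ x X η lam V : ℝ} {κ1 κ2 J N : ℕ} (H : Tup c C Y0) (hC : 1 ≤ C)
    (hf : Mul f e) (hY : Y0 ≤ 2 ^ κ1) (hκ : κ1 < κ2) (hK : 1000 ≤ K)
    (hL : 10 ^ 6 * K * Real.log K ≤ κ1 * Real.log 2) (δ0 : 0 < δ) (δ1 : δ ≤ 1)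
    (hδ : 1 / δ ≤ Real.exp (K * (κ1 * Real.log 2))) (hJ : 4 * K ^ 3 ≤ c * J) (x0 : 0 < x)
    (x1 : x ≤ X) (x2 : X ≤ 2 * x) (hη : 0 ≤ η) (h0 : 0 < lam)
    (hl : η * Real.log (2 ^ κ2) ≤ Real.log lam) (S : Finset ℕ)
    (h : ∀ n ∈ S, n ∈ Ioc 0 N ∧ X ≤ n + (f n : ℝ) ∧ n + (f n : ℝ) ≤ X + x * δ ∧ Sc κ1 κ2 J V n) :
    (S.card : ℝ) ≤ x * δ * (10 ^ 5 * J * (C * (κ2 - κ1)) ^ J * (2 ^ κ2 / 2 ^ κ1)) *
      (Real.exp (-(η * V) + lam * Real.log (450 * Real.log (2 ^ κ2))) * (1 + Real.log N)) := by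
  classical
  rcases S.eq_empty_or_nonempty with rfl | ⟨n0, hn0⟩
  · have : (0 : ℝ) ≤ κ2 - κ1 := sub_nonneg.2 (by exact_mod_cast hκ.le)
    have := Real.log_natCast_nonneg N
    rw [card_empty, Nat.cast_zero]
    positivity
  have : Nonempty (Fin J → Σ _ : ℕ, ℕ) := ⟨fun _ => ⟨0, 0⟩⟩
  choose! r q h1 h2 h3 h4 using fun n hn => (h n hn).2.2.2.tuple hf
  have hr : ∀ n ∈ S, r n ∈ Ioc 0 N := fun n hn => by
    obtain ⟨a1, a2⟩ := mem_Ioc.1 (h n hn).1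
    rw [h1 n hn] at a1 a2
    exact mem_Ioc.2 ⟨Nat.pos_of_mul_pos_right a1,
      (Nat.le_mul_of_pos_right _ (Nat.pos_of_mul_pos_left a1)).trans a2⟩
  refine (fib S r q (fun r q => r * ∏ i, (q i).2) h1 fun r0 hr0 => ?_).trans
    (mul_le_mul_of_nonneg_left (rankin _ N ?_ hη h0 hl fun r0 hr0 => ?_) ?_)
  · obtain ⟨n, hn, rfl⟩ := mem_image.1 hr0
    refine (H e K δ x X (r n) (f (r n)) κ1 κ2 J hf.he hY hκ.le hK hL δ0 δ1 hδ hJ x0 x1 x2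
      (by exact_mod_cast (mem_Ioc.1 (hr n hn)).1) (Nat.cast_nonneg _) _ (fun q' hq => ?_)
      fun q' hq => ?_).trans_eq (by ring)
    · obtain ⟨n', hn', rfl⟩ := mem_image.1 hq
      exact h3 n' (mem_filter.1 hn').1
    · obtain ⟨n', hn', rfl⟩ := mem_image.1 hq
      obtain ⟨e1, e2⟩ := mem_filter.1 hn'
      rw [← e2, ← h4 n' e1, ← Nat.cast_prod, ← Nat.cast_mul, ← h1 n' e1]
      exact ⟨(h n' e1).2.1, (h n' e1).2.2.1⟩
  · exact le_self_pow₀ one_le_two (by omega)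
  · obtain ⟨n, hn, rfl⟩ := mem_image.1 hr0
    exact ⟨hr n hn, h2 n hn⟩
  · have : (0 : ℝ) ≤ κ2 - κ1 := sub_nonneg.2 (by exact_mod_cast hκ.le)
    positivity

theorem sum_log_le {P : Finset ℕ} {y J : ℕ} (h : ∀ p ∈ P, 0 < p ∧ p ≤ y) (hJ : P.card ≤ J) :
    ∑ p ∈ P, Real.log p ≤ J * Real.log y := by
  refine (sum_le_card_nsmul _ _ (Real.log y) fun p hp => Real.log_le_log
    (by exact_mod_cast (h p hp).1) (by exact_mod_cast (h p hp).2)).trans ?_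
  rw [nsmul_eq_mul]
  exact mul_le_mul_of_nonneg_right (by exact_mod_cast hJ) (Real.log_natCast_nonneg y)

theorem pigeon (y J : ℕ → ℕ) (m : ℕ) (P : Finset ℕ) (hP : ∀ p ∈ P, 0 < p ∧ p ≤ y (m + 1)) :
    ∃ j ≤ m, (j = 0 ∨ J j ≤ (P.filter fun p => y j < p ∧ p ≤ y (j + 1)).card) ∧
      ∑ p ∈ P, Real.log p - ∑ i ∈ Icc 1 m, J i * Real.log (y (i + 1)) ≤
        ∑ p ∈ P with p ≤ y (j + 1), Real.log p := by
  induction m generalizing P with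
  | zero => exact ⟨0, le_rfl, .inl rfl, by rw [filter_true_of_mem fun p hp => (hP p hp).2]; simp⟩
  | succ m ih =>
    by_cases h : J (m + 1) ≤ (P.filter fun p => y (m + 1) < p ∧ p ≤ y (m + 1 + 1)).card
    · refine ⟨m + 1, le_rfl, .inr h, ?_⟩
      rw [filter_true_of_mem fun p hp => (hP p hp).2]
      exact sub_le_self _ (sum_nonneg fun _ _ =>
        mul_nonneg (Nat.cast_nonneg _) (Real.log_natCast_nonneg _))
    · obtain ⟨j, h1, h2, h3⟩ := ih (P.filter fun p => p ≤ y (m + 1)) fun p hp =>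
        ⟨(hP p (mem_filter.1 hp).1).1, (mem_filter.1 hp).2⟩
      refine ⟨j, by omega, h2.imp_right fun h => h.trans (card_le_card
        (filter_subset_filter _ (filter_subset _ _))), ?_⟩
      have h4 := sum_filter_add_sum_filter_not P (fun p => p ≤ y (m + 1)) fun p => Real.log p
      have h5 := sum_log_le (P := P.filter fun p => ¬p ≤ y (m + 1)) (y := y (m + 1 + 1))
        (J := J (m + 1)) (fun p hp => hP p (mem_filter.1 hp).1) ((card_le_card fun p hp => by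
          obtain ⟨a, b⟩ := mem_filter.1 hp
          exact mem_filter.2 ⟨a, not_le.1 b, (hP p a).2⟩).trans (not_le.1 h).le)
      have h6 := sum_le_sum_of_subset_of_nonneg (f := fun p : ℕ => Real.log p)
        (filter_subset_filter (fun p => p ≤ y (j + 1)) (filter_subset (fun p => p ≤ y (m + 1)) P))
        fun _ _ _ => Real.log_natCast_nonneg _
      rw [sum_Icc_succ_top (by omega)]
      linarith

theorem split {n κ m : ℕ} (J : ℕ → ℕ) {Δ V0 V1 V2 : ℝ} (hn : 0 < n) (hΔ : Δ ≤ 2 ^ ((m + 1) * κ))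
    (h1 : V1 + 3 * Real.log Δ + ∑ i ∈ Icc 1 m, J i * Real.log (2 ^ ((i + 1) * κ)) ≤ V0)
    (h2 : V2 + ∑ i ∈ Icc 1 m, J i * Real.log (2 ^ ((i + 1) * κ)) ≤ V1) :
    (∃ k : ℕ, Δ < k ∧ k ^ 2 ∣ n) ∨ Sv (2 ^ ((m + 1) * κ)) (Real.exp V0) n ∨ Big (2 ^ κ) V1 n ∨
      ∃ j ∈ Icc 1 m, Sc (j * κ) ((j + 1) * κ) (J j) V2 n := by
  obtain ⟨s, k, s0, k0, e, hs⟩ := Nat.sq_mul_squarefree_of_pos hn
  rcases lt_or_ge Δ k with hk | hk
  · exact .inl ⟨k, hk, Dvd.intro _ e⟩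
  have e1 := prod_filter_mul_prod_filter_not s.primeFactors (fun p => p ≤ 2 ^ ((m + 1) * κ))
    fun p => p
  rw [Nat.prod_primeFactors_of_squarefree hs] at e1
  have hPL : ∀ {a p : ℕ}, p ∈ s.primeFactors → p ≤ 2 ^ a → p ∈ PL (2 ^ a) := fun h h' =>
    (mem_PL (by positivity)).2 ⟨by exact_mod_cast h', Nat.prime_of_mem_primeFactors h⟩
  rcases le_or_gt ((k ^ 2 * ∏ p ∈ s.primeFactors with p ≤ 2 ^ ((m + 1) * κ), p : ℕ) : ℝ)
    (Real.exp V0) with hV | hV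
  · refine .inr (.inl ⟨k, _, _, k0, hk.trans hΔ, fun p hp => hPL (mem_filter.1 hp).1
      (mem_filter.1 hp).2, fun p hp => ?_, by rw [mul_assoc, e1, e], hV⟩)
    exact ⟨Nat.prime_of_mem_primeFactors (mem_filter.1 hp).1,
      by exact_mod_cast not_le.1 (mem_filter.1 hp).2⟩
  refine .inr (.inr ?_)
  obtain ⟨E, hE⟩ : ∃ E, E = s.primeFactors.filter fun p => p ≤ 2 ^ ((m + 1) * κ) := ⟨_, rfl⟩
  rw [← hE] at hV
  have hE1 : ∀ p ∈ E, p ∈ s.primeFactors ∧ p ≤ 2 ^ ((m + 1) * κ) := fun p hp =>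
    mem_filter.1 (hE ▸ hp)
  have hE2 : ∀ p ∈ E, p.Prime := fun p hp => Nat.prime_of_mem_primeFactors (hE1 p hp).1
  have k1 : (0 : ℝ) < k := by exact_mod_cast k0
  have a1 : V0 ≤ 3 * Real.log Δ + ∑ p ∈ E with ¬p ∣ k, Real.log p := by
    have b1 := Nat.le_of_dvd k0 (prod_primes_dvd (s := E.filter (· ∣ k)) k
      (fun p hp => (hE2 p (mem_filter.1 hp).1).prime) fun p hp => (mem_filter.1 hp).2)
    have b2 : ((k ^ 2 * ∏ p ∈ E, p : ℕ) : ℝ) ≤ k ^ 3 * ∏ p ∈ E with ¬p ∣ k, (p : ℝ) := by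
      rw [← prod_filter_mul_prod_filter_not E (· ∣ k), ← mul_assoc, pow_succ (k : ℝ) 2,
        ← Nat.cast_prod]
      exact_mod_cast Nat.mul_le_mul_right _ (Nat.mul_le_mul_left _ b1)
    have b3 : ∀ p ∈ E.filter fun p => ¬p ∣ k, (p : ℝ) ≠ 0 := fun p hp => by
      exact_mod_cast (hE2 p (mem_filter.1 hp).1).ne_zero
    have b4 := Real.log_le_log (Real.exp_pos _) (hV.le.trans b2)
    rw [Real.log_exp, Real.log_mul (by positivity) (prod_ne_zero_iff.2 b3), Real.log_pow,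
      Real.log_prod b3] at b4
    push_cast at b4
    linarith [Real.log_le_log k1 hk]
  obtain ⟨P, hP⟩ : ∃ P, P = E.filter fun p => ¬p ∣ k := ⟨_, rfl⟩
  rw [← hP] at a1
  have hP1 : ∀ p ∈ P, p ∈ E ∧ ¬p ∣ k := fun p hp => mem_filter.1 (hP ▸ hp)
  have hP2 : ∀ p ∈ P, p ∣ n := fun p hp =>
    e ▸ (Nat.dvd_of_mem_primeFactors (hE1 p (hP1 p hp).1).1).mul_left _
  have hP3 : ∀ T ⊆ P, (∏ p ∈ T, p) ∣ n := fun T hT =>
    prod_primes_dvd n (fun p hp => (hE2 p (hP1 p (hT hp)).1).prime) fun p hp => hP2 p (hT hp)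
  obtain ⟨j, j1, j2, j3⟩ := pigeon (fun j => 2 ^ (j * κ)) J m P fun p hp =>
    ⟨(hE2 p (hP1 p hp).1).pos, (hE1 p (hP1 p hp).1).2⟩
  push_cast at j3
  rcases Nat.eq_zero_or_pos j with rfl | j0
  · rw [zero_add, one_mul] at j3
    exact .inl ⟨_, fun p hp => hPL (hE1 p (hP1 p (mem_filter.1 hp).1).1).1 (mem_filter.1 hp).2,
      le_trans (by linarith) j3, hP3 _ (filter_subset _ _)⟩
  obtain ⟨Q, q1, q2⟩ := exists_subset_card_eq (j2.resolve_left j0.ne')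
  have q3 : Q ⊆ P.filter fun p => p ≤ 2 ^ ((j + 1) * κ) := fun p hp =>
    mem_filter.2 ⟨(mem_filter.1 (q1 hp)).1, (mem_filter.1 (q1 hp)).2.2⟩
  refine .inr ⟨j, mem_Icc.2 ⟨j0, j1⟩, Q, (P.filter fun p => p ≤ 2 ^ ((j + 1) * κ)) \ Q, q2,
    fun p hp => ?_, fun p hp => ?_, sdiff_disjoint, ?_,
    hP3 _ (sdiff_subset.trans (filter_subset _ _))⟩
  · obtain ⟨b1, b2, b3⟩ := mem_filter.1 (q1 hp)
    have b4 := hE2 p (hP1 p b1).1
    refine ⟨b4, b2, b3, hP2 p b1, fun b5 => b4.one_lt.ne' (Nat.isUnit_iff.1 (hs p ?_))⟩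
    rw [← sq]
    exact Nat.Coprime.dvd_of_dvd_mul_left
      (Nat.Coprime.pow 2 2 (b4.coprime_iff_not_dvd.2 (hP1 p b1).2)) (e ▸ b5)
  · obtain ⟨b1, b2⟩ := mem_filter.1 (mem_sdiff.1 hp).1
    exact hPL (hE1 p (hP1 p b1).1).1 b2
  · have b1 := sum_sdiff (f := fun p : ℕ => Real.log p) q3
    have b2 := sum_log_le (P := Q) (y := 2 ^ ((j + 1) * κ)) (J := J j) (fun p hp =>
      ⟨(hE2 p (hP1 p (mem_filter.1 (q3 hp)).1).1).pos, (mem_filter.1 (q3 hp)).2⟩) q2.le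
    have b3 := single_le_sum (f := fun i => (J i : ℝ) * Real.log (2 ^ ((i + 1) * κ)))
      (fun i _ => mul_nonneg (Nat.cast_nonneg _) (Real.log_nonneg (one_le_pow₀ one_le_two)))
      (mem_Icc.2 ⟨j0, j1⟩)
    push_cast at b2
    linarith

end Pool.Agent.P.MP_9d1108_nt.Sw
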