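import Pool.Agent.P.MP_9d1108_nt.Sw.Vin
import Pool.Agent.P.MP_9d1108_nt.Sw.Vdc

/-! Exponential sums with the phase `ξ log n + η log (1 + e / n)`. -/

namespace Pool.Agent.P.MP_9d1108_nt.Sw

open Finset
open Pool.Agent.P.MP_b60056_nt.AA

/-- The phase `ξ log x + η log (1 + e / x)`. -/
noncomputable def ph (e ξ η x : ℝ) : ℝ := ξ * Real.log x + η * (Real.log (x + e) - Real.log x)

/-- The exponential sum over a dyadic block. -/
noncomputable def Sx (e ξ η : ℝ) (Y : ℕ) : ℂ := ∑ n ∈ Ioc Y (2 * Y), ee (ph e ξ η n)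

theorem ratio {e a : ℝ} (he : e = 1 ∨ e = -1) (j : ℕ) (ha : 100 ≤ a) (hj : 100 * (j : ℝ) ≤ a) :
    ∃ γ : ℝ, 0.98 * j ≤ γ ∧ γ ≤ 1.02 * j ∧ (a / (a + e)) ^ j = 1 - e / a * γ := by
  have ha0 : 0 < a := by linarith
  have hae : 99 ≤ a + e := by rcases he with rfl | rfl <;> linarith
  have hj0 : (0 : ℝ) ≤ j := Nat.cast_nonneg j
  have h1 := one_add_mul_le_pow (a := e / a) (by
    rw [le_div_iff₀ ha0]; rcases he with rfl | rfl <;> linarith) j
  have h2 := one_add_mul_le_pow (a := -e / (a + e)) (by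
    rw [le_div_iff₀ (by linarith)]; rcases he with rfl | rfl <;> linarith) j
  rw [show 1 + -e / (a + e) = a / (a + e) by field_simp; ring] at h2
  have h3 : (a / (a + e)) ^ j * (1 + e / a) ^ j = 1 := by
    rw [← mul_pow, show a / (a + e) * (1 + e / a) = 1 by field_simp, one_pow]
  have h4 : 0 < (a / (a + e)) ^ j := by positivity
  generalize (a / (a + e)) ^ j = R at h2 h3 h4
  have h5 : R * (a + j * e) ≤ a := by
    have := mul_le_mul_of_nonneg_left h1 (mul_pos h4 ha0).le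
    rw [mul_right_comm R a (_ ^ j), h3, show R * a * (1 + j * (e / a)) = R * (a + j * e) by
      field_simp] at this
    linarith
  have h6 : a + e - j * e ≤ R * (a + e) := by
    have := mul_le_mul_of_nonneg_right h2 (show 0 ≤ a + e by linarith)
    rwa [show (1 + j * (-e / (a + e))) * (a + e) = a + e - j * e by field_simp; ring] at this
  refine ⟨e * a * (1 - R), ?_, ?_, ?_⟩
  · rcases he with rfl | rfl <;> nlinarith
  · rcases he with rfl | rfl <;> nlinarith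
  · rcases he with rfl | rfl <;> field_simp <;> ring

theorem avoid {p θ : ℝ} (ξ η : ℝ) (hp : 1 ≤ p) (hθ : 0 < θ) (hθ1 : θ ≤ 1) :
    ∃ s : ℝ, (s = 1 ∨ s = -1) ∧
      ((∀ γ, 0 ≤ γ → γ ≤ p → θ / 2 * max |ξ| |η| ≤ s * (ξ - η * γ)) ∨
        ∀ γ, (1 + 2 * θ) * p ≤ γ → θ / 2 * max |ξ| |η| ≤ s * (ξ - η * γ)) := by
  wlog hη : 0 ≤ η generalizing ξ η
  · obtain ⟨s, h1, h2⟩ := this (-ξ) (-η) (by linarith)
    refine ⟨-s, by rcases h1 with rfl | rfl <;> simp, ?_⟩
    simp only [abs_neg] at h2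
    exact h2.imp (fun h γ a b => by linarith [h γ a b]) fun h γ a => by linarith [h γ a]
  have h0 : η ≤ η * p := le_mul_of_one_le_right hη hp
  have h1 : θ * η ≤ θ * (η * p) := mul_le_mul_of_nonneg_left h0 hθ.le
  have h2 : 0 ≤ θ * η := by positivity
  rw [abs_of_nonneg hη, mul_max_of_nonneg _ _ (by positivity : 0 ≤ θ / 2)]
  rcases le_total ((1 + θ) * (η * p)) ξ with h | h
  · refine ⟨1, .inl rfl, .inl fun γ a b => ?_⟩
    have h3 := mul_le_mul_of_nonneg_left b hη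
    rw [abs_of_nonneg (by nlinarith)]
    exact max_le (by nlinarith) (by nlinarith)
  · refine ⟨-1, .inr rfl, .inr fun γ a => ?_⟩
    have h3 := mul_le_mul_of_nonneg_left a hη
    refine max_le ?_ (by nlinarith)
    rcases abs_cases ξ with ⟨e, e'⟩ | ⟨e, e'⟩ <;> rw [e] <;> nlinarith

theorem window {u v : ℝ} (hu : 0 ≤ u) (hv : 0 ≤ v) :
    v - u - 1 ≤ (Icc ⌈u⌉₊ ⌊v⌋₊).card ∧ ∀ j ∈ Icc ⌈u⌉₊ ⌊v⌋₊, u ≤ j ∧ (j : ℝ) ≤ v := by
  refine ⟨?_, fun j hj => ⟨Nat.ceil_le.1 (mem_Icc.1 hj).1, (Nat.le_floor_iff hv).1 (mem_Icc.1 hj).2⟩⟩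
  have e1 := Nat.ceil_lt_add_one hu
  have e2 := Nat.lt_floor_add_one v
  have e3 : ⌊v⌋₊ + 1 ≤ (Icc ⌈u⌉₊ ⌊v⌋₊).card + ⌈u⌉₊ := by rw [Nat.card_Icc]; omega
  have e4 : (⌊v⌋₊ + 1 : ℝ) ≤ (Icc ⌈u⌉₊ ⌊v⌋₊).card + ⌈u⌉₊ := by exact_mod_cast e3
  linarith

theorem coef {e ξ η a Y τ Lg : ℝ} (he : e = 1 ∨ e = -1) (hτ : 1000 ≤ τ) (hL : 10 ^ 6 * τ ≤ Lg)
    (hT : max |ξ| (|η| / Y) = Real.exp (τ * Lg)) (hY : 0 < Y) (h1 : Y ≤ a) (h2 : a ≤ 2 * Y)
    (ha1 : Real.exp (99 / 100 * Lg) ≤ a) (ha2 : a ≤ Real.exp Lg) :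
    ∃ A : Finset ℕ, 0.249 * τ ≤ A.card ∧ ∀ j ∈ A, 1.6 * τ ≤ j ∧ (j : ℝ) ≤ 2.35 * τ ∧
      Real.exp (τ * Lg - 1.01 * (j * Lg)) ≤ |(-1) ^ (j + 1) * (ξ - η) / (2 * Real.pi * j * a ^ j) +
        (-1) ^ (j + 1) * η / (2 * Real.pi * j * (a + e) ^ j)| ∧
      |(-1) ^ (j + 1) * (ξ - η) / (2 * Real.pi * j * a ^ j) +
        (-1) ^ (j + 1) * η / (2 * Real.pi * j * (a + e) ^ j)| ≤
        Real.exp (τ * Lg - 0.99 * (j * Lg)) := by
  have hpi := Real.pi_gt_three
  have hpi' := Real.pi_lt_d2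
  have ha0 : 0 < a := hY.trans_le h1
  have ha3 : 1000 * τ ≤ a := by linarith [Real.add_one_le_exp (99 / 100 * Lg)]
  have hae : 0 < a + e := by rcases he with rfl | rfl <;> linarith
  have hη : |η * (e / a)| = |η| / a := by
    rw [abs_mul, abs_div, abs_of_pos ha0]
    rcases he with rfl | rfl <;> simp [div_eq_mul_inv]
  set T := Real.exp (τ * Lg) with hTd
  have t1 : |ξ| ≤ T := hT ▸ le_max_left _ _
  have t2 : |η| / a ≤ T :=
    (div_le_div_of_nonneg_left (abs_nonneg _) hY h1).trans (hT ▸ le_max_right _ _)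
  have t3 : T ≤ 2 * max |ξ| (|η| / a) := by
    rw [← hT]
    refine max_le (by linarith [le_max_left |ξ| (|η| / a), abs_nonneg ξ]) ?_
    have : |η| / Y ≤ 2 * (|η| / a) := by
      rw [← mul_div_assoc, div_le_div_iff₀ hY ha0]
      nlinarith [abs_nonneg η]
    linarith [le_max_right |ξ| (|η| / a)]
  have key : ∀ j : ℕ, 1.6 * τ ≤ j → (j : ℝ) ≤ 2.35 * τ →
      (∀ γ : ℝ, 0.98 * j ≤ γ → γ ≤ 1.02 * j → T / 100 ≤ |ξ - η * (e / a) * γ|) →
      Real.exp (τ * Lg - 1.01 * (j * Lg)) ≤ |(-1) ^ (j + 1) * (ξ - η) / (2 * Real.pi * j * a ^ j) +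
        (-1) ^ (j + 1) * η / (2 * Real.pi * j * (a + e) ^ j)| ∧
      |(-1) ^ (j + 1) * (ξ - η) / (2 * Real.pi * j * a ^ j) +
        (-1) ^ (j + 1) * η / (2 * Real.pi * j * (a + e) ^ j)| ≤
        Real.exp (τ * Lg - 0.99 * (j * Lg)) := fun j j1 j2 hg => by
    obtain ⟨γ, g1, g2, g3⟩ := ratio he j (a := a) (by linarith) (by linarith)
    have hj : (0 : ℝ) < j := by linarith
    have e1 : (-1) ^ (j + 1) * (ξ - η) / (2 * Real.pi * j * a ^ j) +
        (-1) ^ (j + 1) * η / (2 * Real.pi * j * (a + e) ^ j) =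
        (-1) ^ (j + 1) * (ξ - η * (e / a) * γ) / (2 * Real.pi * j * a ^ j) := by
      rw [show η * (e / a) * γ = η - η * (a / (a + e)) ^ j by rw [g3]; ring, div_pow]
      field_simp
      ring
    have u1 := pow_le_pow_left₀ (Real.exp_pos _).le ha1 j
    have u2 := pow_le_pow_left₀ ha0.le ha2 j
    rw [← Real.exp_nat_mul] at u1 u2
    rw [e1, abs_div, abs_mul, abs_pow, abs_neg, abs_one, one_pow, one_mul,
      abs_of_pos (show 0 < 2 * Real.pi * j * a ^ j by positivity), le_div_iff₀ (by positivity),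
      div_le_iff₀ (by positivity)]
    constructor
    · refine le_trans ?_ (hg γ g1 g2)
      have u3 : 700 * (j : ℝ) ≤ Real.exp (0.01 * (j * Lg)) := by
        have := mul_le_mul_of_nonneg_left (show 10 ^ 9 ≤ Lg by linarith) hj.le
        linarith [Real.add_one_le_exp (0.01 * (j * Lg))]
      calc _ ≤ Real.exp (τ * Lg - 1.01 * (j * Lg)) *
            (Real.exp (0.01 * (j * Lg)) / 100 * Real.exp (j * Lg)) := by
            gcongr
            nlinarith
        _ = T / 100 := by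
            rw [hTd, div_mul_eq_mul_div, ← mul_div_assoc, ← Real.exp_add, ← Real.exp_add]
            congr 2
            ring
    · calc _ ≤ |ξ| + |η| / a * γ := by
            refine (abs_sub _ _).trans_eq ?_
            rw [abs_mul, hη, abs_of_nonneg (show 0 ≤ γ by linarith)]
        _ ≤ T + T * (1.02 * j) := by gcongr; linarith
        _ ≤ T * (2 * Real.pi * j) := by
            rw [← mul_one_add]
            exact mul_le_mul_of_nonneg_left (by nlinarith) (Real.exp_pos _).le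
        _ = Real.exp (τ * Lg - 0.99 * (j * Lg)) *
            (2 * Real.pi * j * Real.exp (j * (99 / 100 * Lg))) := by
            rw [mul_comm T, mul_left_comm (Real.exp _), ← Real.exp_add, hTd]
            congr 2
            ring
        _ ≤ _ := by gcongr
  obtain ⟨s, hs, h⟩ := avoid ξ (η * (e / a)) (p := 1.887 * τ) (θ := 0.04) (by linarith)
    (by norm_num) (by norm_num)
  have hab : ∀ x : ℝ, s * x ≤ |x| := fun x => by
    rcases hs with rfl | rfl
    · simpa using le_abs_self x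
    · simpa using neg_le_abs x
  rw [hη] at h
  rcases h with h | h
  · obtain ⟨w1, w2⟩ := window (u := 1.6 * τ) (v := 1.85 * τ) (by linarith) (by linarith)
    refine ⟨_, le_trans (by linarith) w1, fun j hj => ?_⟩
    obtain ⟨j1, j2⟩ := w2 j hj
    exact ⟨j1, by linarith, key j j1 (by linarith) fun γ g1 g2 => by
      linarith [h γ (by linarith) (by linarith), hab (ξ - η * (e / a) * γ)]⟩
  · obtain ⟨w1, w2⟩ := window (u := 2.1 * τ) (v := 2.35 * τ) (by linarith) (by linarith)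
    refine ⟨_, le_trans (by linarith) w1, fun j hj => ?_⟩
    obtain ⟨j1, j2⟩ := w2 j hj
    exact ⟨by linarith, j2, key j (by linarith) j2 fun γ g1 g2 => by
      linarith [h γ (by linarith), hab (ξ - η * (e / a) * γ)]⟩

open Vino in
theorem vino2 {e ξ η K0 : ℝ} {Y : ℕ} (he : e = 1 ∨ e = -1) (hK0 : 1000 ≤ K0)
    (ht1 : Real.exp (1000 * Real.log (2 * Y)) ≤ max |ξ| (|η| / Y))
    (ht2 : max |ξ| (|η| / Y) ≤ Real.exp (K0 * Real.log (2 * Y)))
    (hL : 10 ^ 6 * K0 * Real.log K0 ≤ Real.log (2 * Y)) :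
    ‖Sx e ξ η Y‖ ≤ 9 * Y * Real.exp (-Real.log (2 * Y) / (10 ^ 12 * K0 ^ 2)) := by
  set Lg := Real.log (2 * Y) with hLg
  have hlK := log_ge hK0
  have hL0 : 10 ^ 9 ≤ Lg := by nlinarith
  have hY : (0 : ℝ) < Y := by
    rcases Nat.eq_zero_or_pos Y with h0 | h0
    · rw [h0] at hLg
      simp at hLg
      rw [hLg] at hL0
      norm_num at hL0
    · exact_mod_cast h0
  have hY1 : (1 : ℝ) ≤ Y := by exact_mod_cast hY
  have hLp : 0 < Lg := by linarith
  have hNe : Real.exp Lg = 2 * Y := Real.exp_log (by linarith)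
  set T := max |ξ| (|η| / Y) with hT
  have ht0 : 0 < T := lt_of_lt_of_le (Real.exp_pos _) ht1
  set τ := Real.log T / Lg with hτ
  have hτL : τ * Lg = Real.log T := div_mul_cancel₀ _ hLp.ne'
  have hte : T = Real.exp (τ * Lg) := by rw [hτL, Real.exp_log ht0]
  have hτ1 : 1000 ≤ τ := by
    rw [hte, Real.exp_le_exp] at ht1
    exact le_of_mul_le_mul_right ht1 hLp
  have hτ2 : τ ≤ K0 := by
    rw [hte, Real.exp_le_exp] at ht2
    exact le_of_mul_le_mul_right ht2 hLp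
  have hlτ := log_ge hτ1
  have hτ3 : 10 ^ 6 * τ * Real.log τ ≤ Lg := by
    have h2 := Real.log_le_log (by linarith) hτ2
    have h3 := mul_le_mul hτ2 h2 (by linarith) (by linarith)
    nlinarith
  have hτ4 : 10 ^ 6 * τ ≤ Lg := by nlinarith
  set K := ⌈4 * τ⌉₊ with hK
  have hK1 : 4 * τ ≤ K := Nat.le_ceil _
  have hK2 : (K : ℝ) < 4 * τ + 1 := Nat.ceil_lt_add_one (by linarith)
  have hKp : (0 : ℝ) < K := by linarith
  have hZ : 2 ≤ Real.exp (Lg / (3009 * K)) := by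
    have h2 : 1 ≤ Lg / (3009 * K) := by
      rw [le_div_iff₀ (by positivity)]
      linarith
    linarith [Real.add_one_le_exp (Lg / (3009 * K))]
  obtain ⟨p, hp, hp1, hp2⟩ := prime hZ
  have hP : ((p ^ (1003 * K) : ℕ) : ℝ) ≤ Real.exp (Lg / 3) := by
    push_cast
    refine (pow_le_pow_left₀ (Nat.cast_nonneg _) hp2 _).trans (le_of_eq ?_)
    rw [← Real.exp_nat_mul]
    congr 1
    push_cast
    field_simp
    norm_num
  have hP0 : 0 < p ^ (1003 * K) := pow_pos hp.pos _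
  generalize hPd : p ^ (1003 * K) = P at hP hP0
  have hP2 : (P : ℝ) ^ 2 ≤ Real.exp (2 / 3 * Lg) := by
    refine (pow_le_pow_left₀ (Nat.cast_nonneg _) hP 2).trans (le_of_eq ?_)
    rw [← Real.exp_nat_mul]
    congr 1
    push_cast
    ring
  have hM : Real.exp (99 / 100 * Lg) ≤ Y := by
    have h2 : Real.exp (99 / 100 * Lg) * Real.exp (1 / 100 * Lg) = 2 * Y := by
      rw [← hNe, ← Real.exp_add]
      congr 1
      ring
    nlinarith [Real.add_one_le_exp (1 / 100 * Lg), Real.exp_pos (99 / 100 * Lg)]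
  have key := core (fun n => ee (ph e ξ η n)) (fun n => (norm_ee _).le) (M := Y) (N := 2 * Y)
    (by omega) hP0 (fun a u v => ee (2 * Real.pi * ∑ j ∈ Icc 1 K,
      ((-1) ^ (j + 1) * (ξ - η) / (2 * Real.pi * j * (a : ℝ) ^ j) +
        (-1) ^ (j + 1) * η / (2 * Real.pi * j * ((a : ℝ) + e) ^ j)) * (u : ℝ) ^ j * (v : ℝ) ^ j))
    (4 * Real.exp (-(1 / 3 * Lg))) (Real.exp (-Lg / (10 ^ 12 * K0 ^ 2))) ?_ ?_
  · refine key.trans ?_
    have h3 : Real.exp (2 / 3 * Lg) = 2 * Y * Real.exp (-(1 / 3 * Lg)) := by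
      rw [← hNe, ← Real.exp_add]
      congr 1
      ring
    have h4 : Real.exp (-(1 / 3 * Lg)) ≤ Real.exp (-Lg / (10 ^ 12 * K0 ^ 2)) := by
      rw [Real.exp_le_exp, neg_div, neg_le_neg_iff, div_le_iff₀ (by positivity)]
      nlinarith [mul_le_mul_of_nonneg_left (show 1 ≤ K0 ^ 2 by nlinarith) hLp.le]
    push_cast
    nlinarith
  · intro a ha u hu v hv
    have ha1 : (Y : ℝ) + 1 ≤ a := by exact_mod_cast (mem_Ioc.1 ha).1
    have hu' : (u : ℝ) ≤ P := by exact_mod_cast (mem_range.1 hu).le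
    have hv' : (v : ℝ) ≤ P := by exact_mod_cast (mem_range.1 hv).le
    have huv := mul_le_mul hu' hv' (Nat.cast_nonneg _) (Nat.cast_nonneg _)
    have tay : ∀ t b : ℝ, (Y : ℝ) ≤ b → |t| ≤ T * (2 * Y) →
        ‖ee (t * Real.log (b + u * v)) - ee (t * Real.log b) * ee (2 * Real.pi * ∑ j ∈ Icc 1 K,
          (-1) ^ (j + 1) * t / (2 * Real.pi * j * b ^ j) * u ^ j * v ^ j)‖ ≤
          2 * Real.exp (-(1 / 3 * Lg)) := fun t b hb ht => by
      have hb0 : 0 < b := hY.trans_le hb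
      have hx0 : 0 ≤ (u : ℝ) * v / b := by positivity
      have hx1 : (u : ℝ) * v / b ≤ Real.exp (-(32 / 100 * Lg)) := by
        rw [div_le_iff₀ hb0]
        have h2 : Real.exp (2 / 3 * Lg) ≤
            Real.exp (-(32 / 100 * Lg)) * Real.exp (99 / 100 * Lg) := by
          rw [← Real.exp_add, Real.exp_le_exp]
          linarith
        have h3 := mul_le_mul_of_nonneg_left (hM.trans hb) (Real.exp_pos (-(32 / 100 * Lg))).le
        linarith [sq (P : ℝ)]
      have hx2 : Real.exp (-(32 / 100 * Lg)) ≤ 1 / 2 := by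
        rw [Real.exp_neg, ← one_div]
        refine one_div_le_one_div_of_le (by norm_num) ?_
        linarith [Real.add_one_le_exp (32 / 100 * Lg)]
      refine (taylor t b u v K hb0 hx0 (hx1.trans hx2)).trans ?_
      have h5 := pow_le_pow_left₀ hx0 hx1 (K + 1)
      rw [← Real.exp_nat_mul] at h5
      rw [hte, ← hNe, ← Real.exp_add] at ht
      have h6 : Real.exp (τ * Lg + Lg) * Real.exp (((K + 1 : ℕ) : ℝ) * -(32 / 100 * Lg)) ≤
          Real.exp (-(1 / 3 * Lg)) := by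
        rw [← Real.exp_add, Real.exp_le_exp]
        push_cast
        linarith [mul_le_mul_of_nonneg_right hK1 hLp.le, mul_le_mul_of_nonneg_right hτ1 hLp.le]
      have h7 := mul_le_mul ht h5 (by positivity) (Real.exp_pos _).le
      linarith
    have t1 : |ξ| ≤ T * Y := (le_max_left _ _).trans (le_mul_of_one_le_right ht0.le hY1)
    have t2 : |η| ≤ T * Y := (div_le_iff₀ hY).1 (le_max_right _ _)
    have k1 := tay (ξ - η) a (by linarith) (by linarith [abs_sub ξ η])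
    have k2 := tay η (a + e) (by rcases he with rfl | rfl <;> linarith)
      (by linarith [abs_nonneg η])
    have e1 : ∀ x, ee (ph e ξ η x) = ee ((ξ - η) * Real.log x) * ee (η * Real.log (x + e)) :=
      fun x => by rw [← ee_add, ph]; congr 1; ring
    simp only [e1, add_mul, sum_add_distrib, mul_add, ee_add]
    push_cast
    rw [add_right_comm (a : ℝ) _ e]
    have n1 := norm_ee (η * Real.log (a + e + u * v))
    have n2 := norm_ee ((ξ - η) * Real.log a)
    have n3 := norm_ee (2 * Real.pi * ∑ j ∈ Icc 1 K,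
      (-1) ^ (j + 1) * (ξ - η) / (2 * Real.pi * j * (a : ℝ) ^ j) * u ^ j * v ^ j)
    generalize ee (η * Real.log (a + e + u * v)) = B at *
    generalize ee ((ξ - η) * Real.log a) = A1 at *
    generalize ee (2 * Real.pi * ∑ j ∈ Icc 1 K,
      (-1) ^ (j + 1) * (ξ - η) / (2 * Real.pi * j * (a : ℝ) ^ j) * u ^ j * v ^ j) = A2 at *
    rw [show ∀ A B1 B2 : ℂ, A * B - A1 * B1 * (A2 * B2) =
      (A - A1 * A2) * B + A1 * A2 * (B - B1 * B2) from fun _ _ _ => by ring]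
    refine (norm_add_le _ _).trans ?_
    rw [norm_mul, norm_mul, norm_mul, n1, n2, n3]
    linarith
  · intro a ha
    have ha1 : (Y : ℝ) ≤ a := by exact_mod_cast (mem_Ioc.1 ha).1.le
    have ha2 : (a : ℝ) ≤ 2 * Y := by exact_mod_cast (mem_Ioc.1 ha).2
    obtain ⟨A, h3, h4⟩ := coef he hτ1 hτ4 hte hY ha1 ha2 (hM.trans ha1) (hNe ▸ ha2)
    have h2 := wb2 _ A hτ1 hτ3 hK hp hp1 hp2 h3 h4
    rw [hPd] at h2
    refine le_trans h2 (Real.exp_le_exp.2 ?_)
    rw [neg_div, neg_div, neg_le_neg_iff]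
    refine div_le_div_of_nonneg_left hLp.le (by positivity) ?_
    have := pow_le_pow_left₀ (by linarith) hτ2 2
    linarith

end Pool.Agent.P.MP_9d1108_nt.Sw
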