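import Pool.Agent.P.MP_9d1108_nt.Sw.Exp

/-! The bound for the exponential sums in the whole range. -/

namespace Pool.Agent.P.MP_9d1108_nt.Sw

open Finset
open Pool.Agent.P.MP_b60056_nt.AA

/-- The derivatives of the phase. -/
noncomputable def fam (e ξ η : ℝ) : ℕ → ℝ → ℝ
  | 0, x => ph e ξ η x
  | j + 1, x => (-1) ^ j * j.factorial * ((ξ - η) * (x ^ (j + 1))⁻¹ + η * ((x + e) ^ (j + 1))⁻¹)

theorem hd_inv (e : ℝ) {x : ℝ} (h : x + e ≠ 0) (j : ℕ) :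
    HasDerivAt (fun x => ((x + e) ^ (j + 1))⁻¹) (-(j + 1) * ((x + e) ^ (j + 1 + 1))⁻¹) x := by
  refine ((((hasDerivAt_id' x).add_const e).fun_pow (j + 1)).fun_inv
    (pow_ne_zero _ h)).congr_deriv ?_
  simp only [Nat.add_sub_cancel]
  push_cast
  field_simp
  ring

theorem hd_fam (e ξ η : ℝ) {x : ℝ} (h0 : x ≠ 0) (h : x + e ≠ 0) (j : ℕ) :
    HasDerivAt (fam e ξ η j) (fam e ξ η (j + 1) x) x := by
  rcases j with _ | j
  · refine (((Real.hasDerivAt_log h0).const_mul ξ).add ((((hasDerivAt_id' x).add_const e).log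
      h).sub (Real.hasDerivAt_log h0) |>.const_mul η)).congr_deriv ?_
    simp only [fam]
    norm_num
    ring
  · have h1 := hd_inv 0 (x := x) (by simpa using h0) j
    simp only [add_zero] at h1
    refine (((h1.const_mul (ξ - η)).add ((hd_inv e h j).const_mul η)).const_mul
      ((-1 : ℝ) ^ j * j.factorial)).congr_deriv ?_
    simp only [fam, Nat.factorial_succ]
    push_cast
    ring

theorem fam_eq {e x Y : ℝ} (ξ η : ℝ) (he : e = 1 ∨ e = -1) (j : ℕ) (hj : 100 * ((j : ℝ) + 1) ≤ Y)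
    (h1 : Y ≤ x) (h2 : x ≤ 3 * Y) : ∃ γ : ℝ, 0.32 * (j + 1) ≤ γ ∧ γ ≤ 1.02 * (j + 1) ∧
      fam e ξ η (j + 1) x = (-1) ^ j * (j.factorial * ((ξ - e * η / Y * γ) / x ^ (j + 1))) := by
  have hj0 : (0 : ℝ) ≤ j := Nat.cast_nonneg j
  obtain ⟨γ, g1, g2, g3⟩ := ratio he (j + 1) (a := x) (by linarith) (by push_cast; linarith)
  push_cast at g1 g2
  have hY : 0 < Y := by linarith
  have hx : 0 < x := by linarith
  have hxe : 0 < x + e := by rcases he with rfl | rfl <;> linarith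
  refine ⟨γ * Y / x, ?_, ?_, ?_⟩
  · rw [le_div_iff₀ hx]; nlinarith
  · rw [div_le_iff₀ hx]; nlinarith
  · rw [show e * η / Y * (γ * Y / x) = η - η * (x / (x + e)) ^ (j + 1) by
      rw [g3]; field_simp; ring, div_pow]
    simp only [fam]
    field_simp
    ring

theorem Sx_le (e ξ η : ℝ) (Y : ℕ) : ‖Sx e ξ η Y‖ ≤ Y := by
  refine (sum_le_card _ (fun n => (norm_ee _).le) _).trans_eq ?_
  rw [Nat.card_Ioc]; congr 1; omega

theorem vdc1 (k : ℕ) (hk : 8000 ≤ k) (hk2 : Even k) : ∃ c C Y0 : ℝ, 0 < c ∧ 1 ≤ C ∧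
    ∀ (e ξ η T : ℝ) (Y : ℕ), (e = 1 ∨ e = -1) → Y0 ≤ Y → 1 ≤ T →
      T ≤ Real.exp (1000 * Real.log (2 * Y)) → |ξ| ≤ T → |η| / Y ≤ T →
      (∀ γ : ℝ, 0.32 * (k + 1) ≤ γ → γ ≤ 1.02 * (k + 1) → T / 5 ≤ ξ - e * η / Y * γ) →
      ‖Sx e ξ η Y‖ ≤ C * Y * Real.exp (-(c * Real.log T)) := by
  obtain ⟨b, C, hb, hC, H⟩ := vdc k
  have hk' : (8000 : ℝ) ≤ k := by exact_mod_cast hk
  have hb' : (1 : ℝ) ≤ b := by exact_mod_cast hb
  have hA : (1 : ℝ) ≤ k.factorial := by exact_mod_cast k.factorial_pos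
  have hB : (1 : ℝ) ≤ 3 ^ (k + 1) := one_le_pow₀ (by norm_num)
  have hG : (1 : ℝ) ≤ 2 ^ k := one_le_pow₀ (by norm_num)
  obtain ⟨ρ, hρ⟩ : ∃ ρ : ℝ, ρ = 15 * (k + 2) * (k + 1) * 3 ^ (k + 1) := ⟨_, rfl⟩
  have hρ0 : (k : ℝ) ≤ ρ := by
    rw [hρ]
    exact le_trans (by nlinarith) (le_mul_of_one_le_right (by positivity) hB)
  obtain ⟨Θ0, hΘ0⟩ : ∃ Θ0 : ℝ, Θ0 = 5 * 3 ^ (k + 1) * 2 ^ k * (1 + ρ) := ⟨_, rfl⟩
  have hΘ1 : 5 * (1 + ρ) ≤ Θ0 := by
    rw [hΘ0]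
    have := one_le_mul_of_one_le_of_one_le hB hG
    nlinarith
  refine ⟨1 / ((k + 2) * b), C + Θ0, ((k + 1) * k.factorial) ^ 2 + 100 * (k + 2), by positivity,
    by linarith, fun e ξ η T Y he hY hT1 hT2 t1 t2 hg => ?_⟩
  have hY1 : 100 * ((k : ℝ) + 2) ≤ Y := by linarith [sq_nonneg (((k : ℝ) + 1) * k.factorial)]
  have hY0 : (0 : ℝ) < Y := by linarith
  have hl := Real.log_nonneg hT1
  obtain ⟨σ, hσ⟩ : ∃ σ, σ = Real.exp (-(1 / ((k + 2) * b) * Real.log T)) := ⟨_, rfl⟩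
  obtain ⟨Θ, hΘ⟩ : ∃ Θ, Θ = Real.exp (Real.log T / (k + 2)) := ⟨_, rfl⟩
  have σ0 : 0 < σ := hσ ▸ Real.exp_pos _
  have σ1 : σ ≤ 1 := hσ ▸ Real.exp_le_one_iff.2 (neg_nonpos.2 (by positivity))
  have Θ1 : 1 ≤ Θ := hΘ ▸ Real.one_le_exp (by positivity)
  have σΘ : σ ^ b = Θ⁻¹ := by
    rw [hσ, hΘ, ← Real.exp_nat_mul, ← Real.exp_neg]
    congr 1
    field_simp
  have ΘT : Θ ^ k * Θ ^ 2 = T := by
    rw [← pow_add, hΘ, ← Real.exp_nat_mul, ← Real.exp_log (show 0 < T by linarith)]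
    congr 1
    rw [Real.log_exp]
    push_cast
    field_simp
  have ΘY : (Θ ^ 2) ^ 2 ≤ Y := by
    rw [← pow_mul, hΘ, ← Real.exp_nat_mul, ← Real.exp_log hY0, Real.exp_le_exp]
    have h1 := Real.log_le_log (by linarith) hT2
    have h2 := Real.log_le_log (by linarith) (show 2 * (Y : ℝ) ≤ Y * Y by nlinarith)
    rw [Real.log_mul hY0.ne' hY0.ne'] at h2
    rw [Real.log_exp] at h1
    have h3 := Real.log_nonneg (show (1 : ℝ) ≤ Y by linarith)
    push_cast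
    rw [← mul_div_assoc, div_le_iff₀ (by positivity)]
    nlinarith
  have hu : (k + 1) * k.factorial * Θ ^ 2 ≤ Y := by
    nlinarith [sq_nonneg (((k : ℝ) + 1) * k.factorial - Θ ^ 2)]
  have hu2 : 2 * Θ ^ 2 ≤ Y := le_trans (by gcongr; nlinarith) hu
  rw [← hσ]
  rcases lt_or_ge Θ Θ0 with h | h
  · have h1 := Sx_le e ξ η Y
    have h2 : 1 ≤ Θ0 * σ := by
      have h3 : σ ^ b ≤ σ := pow_le_of_le_one σ0.le σ1 (by omega)
      rw [σΘ, inv_le_iff_one_le_mul₀ (by linarith)] at h3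
      nlinarith
    have h3 : 0 ≤ C * σ := by positivity
    nlinarith
  have hH1 : (⌊Y / Θ⌋₊ : ℝ) ≤ Y / Θ := Nat.floor_le (by positivity)
  have hH2 : Y / Θ / 2 ≤ (⌊Y / Θ⌋₊ : ℝ) := by
    have h1 : 2 ≤ Y / Θ := by rw [le_div_iff₀ (by linarith)]; nlinarith
    linarith [Nat.lt_floor_add_one (Y / Θ)]
  generalize ⌊Y / Θ⌋₊ = N at hH1 hH2
  have hη : |e * η / Y| ≤ T := by
    rw [abs_div, abs_mul, abs_of_pos hY0]
    rcases he with rfl | rfl <;> simpa using t2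
  have up : ∀ j γ : ℝ, 1 ≤ j → 0 ≤ γ → γ ≤ 1.02 * j → |ξ - e * η / Y * γ| ≤ 3 * j * T :=
    fun j γ j1 g1 g2 => by
      refine (abs_sub _ _).trans ?_
      rw [abs_mul, abs_of_nonneg g1]
      nlinarith [mul_le_mul hη g2 g1 (by linarith)]
  have key := H (fam e ξ η) (Y + 1) (2 * Y - 1) (k.factorial * (T / 5 / (3 * Y) ^ (k + 1)))
    (k.factorial * (3 * (k + 1) * T / Y ^ (k + 1)))
    ((k + 1).factorial * (3 * (k + 2) * T / Y ^ (k + 1 + 1))) ρ σ Y N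
    (fun j x hx => hd_fam e ξ η (by linarith [hx.1])
      (by rcases he with rfl | rfl <;> linarith [hx.1]) j) (fun x hx => ?_) (fun x hx => ?_)
    ?_ σ0 σ1 (by positivity) (by linarith) ?_ ?_ ?_ ?_ ?_
  · rw [Sx, ← Finset.Ico_add_one_add_one_eq_Ioc, sum_Ico_eq_sum_range,
      show 2 * Y + 1 - (Y + 1) = Y by omega]
    push_cast
    refine le_trans key ?_
    have h3 : 0 ≤ Θ0 * Y * σ := by have : 0 ≤ Θ0 := by linarith
                                   positivity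
    linarith
  · obtain ⟨γ, g1, g2, g3⟩ := fam_eq ξ η he k (x := x) (Y := Y) (by linarith) (by linarith [hx.1])
      (by linarith [hx.2])
    have x1 : (Y : ℝ) ≤ x := by linarith [hx.1]
    have x2 : x ≤ 3 * Y := by linarith [hx.2]
    have x0 : 0 < x := by linarith
    have g4 := hg γ g1 g2
    have g5 := (le_abs_self _).trans (up (k + 1) γ (by linarith) (by linarith) g2)
    rw [g3, hk2.neg_one_pow, one_mul]
    constructor
    · gcongr
      linarith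
    · gcongr
  · obtain ⟨γ, g1, g2, g3⟩ := fam_eq ξ η he (k + 1) (x := x) (Y := Y) (by push_cast; linarith)
      (by linarith [hx.1]) (by linarith [hx.2])
    have x1 : (Y : ℝ) ≤ x := by linarith [hx.1]
    have x0 : 0 < x := by linarith
    push_cast at g1 g2
    have g5 := up (k + 2) γ (by linarith) (by linarith) (by linarith)
    rw [g3, abs_mul, abs_pow, abs_neg, abs_one, one_pow, one_mul, abs_mul, abs_div,
      abs_of_pos (pow_pos x0 _), Nat.abs_cast]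
    gcongr
  · have h1 : (N : ℝ) * Θ ≤ Y := (le_div_iff₀ (by linarith)).1 hH1
    have h2 : (N : ℝ) * (5 * k) ≤ N * Θ := by gcongr; linarith
    linarith
  · rw [σΘ, ← div_eq_inv_mul, le_div_iff₀ (by linarith)]
    refine le_trans ?_ hH2
    rw [div_div, le_div_iff₀ (by linarith)]
    linarith
  · rwa [σΘ, ← div_eq_inv_mul]
  · calc _ ≤ k.factorial * (3 * (k + 1) * T / Y ^ (k + 1)) * (Y / Θ) ^ k := by gcongr
      _ = 3 * ((k + 1) * k.factorial * Θ ^ 2 / Y) := by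
        rw [← ΘT, div_pow, pow_succ (Y : ℝ)]
        field_simp
      _ ≤ 3 := by linarith [(div_le_one hY0).2 hu]
  · rw [hρ, Nat.factorial_succ, mul_pow, pow_succ (Y : ℝ) (k + 1)]
    push_cast
    refine le_of_eq ?_
    field_simp
    ring
  · calc 1 + ρ = Θ0 / (5 * 3 ^ (k + 1) * 2 ^ k) := by rw [hΘ0]; field_simp
      _ ≤ k.factorial * Θ / (5 * 3 ^ (k + 1) * 2 ^ k) := by gcongr; nlinarith
      _ = Θ⁻¹ * Y * (Y / Θ / 2) ^ k * (k.factorial * (T / 5 / (3 * Y) ^ (k + 1))) := by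
        rw [← ΘT, div_pow, div_pow, mul_pow, pow_succ (Y : ℝ)]
        field_simp
      _ ≤ _ := by rw [σΘ]; gcongr

theorem Sx_sign {s : ℝ} (hs : s = 1 ∨ s = -1) (e ξ η : ℝ) (Y : ℕ) :
    ‖Sx e (s * ξ) (s * η) Y‖ = ‖Sx e ξ η Y‖ := by
  rcases hs with rfl | rfl
  · simp
  · rw [← Complex.norm_conj, Sx, Sx, map_sum]
    congr 1
    refine sum_congr rfl fun n _ => ?_
    rw [conj_ee, ph, ph]
    congr 1
    ring

theorem expo : ∃ c C Y0 : ℝ, 0 < c ∧ c ≤ 1 ∧ 1 ≤ C ∧ ∀ (e ξ η K T : ℝ) (Y : ℕ), (e = 1 ∨ e = -1) →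
    Y0 ≤ Y → 1000 ≤ K → 10 ^ 6 * K * Real.log K ≤ Real.log Y → |ξ| ≤ Real.exp (K * Real.log Y) →
    |η| / Y ≤ Real.exp (K * Real.log Y) → 1 ≤ T → T ≤ max 1 (max |ξ| (|η| / Y)) →
    ‖Sx e ξ η Y‖ ≤ C * Y * Real.exp (-(c / K ^ 3 * Real.log T)) := by
  obtain ⟨c1, C1, Y1, a1, a2, H1⟩ := vdc1 8000 le_rfl ⟨4000, rfl⟩
  obtain ⟨c2, C2, Y2, b1, b2, H2⟩ := vdc1 50000 (by norm_num) ⟨25000, rfl⟩
  obtain ⟨c, hc⟩ : ∃ c, c = min (min c1 c2) (1 / 10 ^ 12) := ⟨_, rfl⟩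
  have c0 : 0 < c := hc ▸ lt_min (lt_min a1 b1) (by norm_num)
  have d1 : c ≤ c1 := hc ▸ (min_le_left _ _).trans (min_le_left _ _)
  have d2 : c ≤ c2 := hc ▸ (min_le_left _ _).trans (min_le_right _ _)
  have d3 : c ≤ 1 / 10 ^ 12 := hc ▸ min_le_right _ _
  refine ⟨c, C1 + C2 + 9, max (max Y1 Y2) 1, c0, by linarith, by linarith,
    fun e ξ η K T Y he hY hK hL t1 t2 T1 T2 => ?_⟩
  have hY1 : (1 : ℝ) ≤ Y := le_of_max_le_right hY
  have hlog : Real.log Y ≤ Real.log (2 * Y) := Real.log_le_log (by linarith) (by linarith)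
  have hlY := Real.log_nonneg hY1
  have hK3 : 1 ≤ K ^ 3 := one_le_pow₀ (by linarith)
  have hlT := Real.log_nonneg T1
  obtain ⟨U, hU⟩ : ∃ U, U = max |ξ| (|η| / Y) := ⟨_, rfl⟩
  rw [← hU] at T2
  rcases le_total U 1 with h | h
  · rw [max_eq_left h] at T2
    rw [le_antisymm T2 T1, Real.log_one, mul_zero, neg_zero, Real.exp_zero]
    nlinarith [Sx_le e ξ η Y]
  rw [max_eq_right h] at T2
  have hTU := Real.log_le_log (by linarith) T2
  have fin : ∀ C' x : ℝ, 0 ≤ C' → C' ≤ C1 + C2 + 9 → c / K ^ 3 * Real.log T ≤ x →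
      ‖Sx e ξ η Y‖ ≤ C' * Y * Real.exp (-x) →
      ‖Sx e ξ η Y‖ ≤ (C1 + C2 + 9) * Y * Real.exp (-(c / K ^ 3 * Real.log T)) :=
    fun C' x h0 h1 h2 h3 => h3.trans (by gcongr)
  have d4 : ∀ c' : ℝ, c ≤ c' → c / K ^ 3 * Real.log T ≤ c' * Real.log U := fun c' h1 =>
    mul_le_mul ((div_le_self c0.le hK3).trans h1) hTU hlT (by linarith)
  rcases le_total U (Real.exp (1000 * Real.log (2 * Y))) with h' | h'
  · obtain ⟨s, hs, h1⟩ := avoid ξ (e * η / Y) (p := 8162) (θ := 0.4) (by norm_num) (by norm_num)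
      (by norm_num)
    have e1 : ∀ x : ℝ, |s * x| = |x| := fun x => by rcases hs with rfl | rfl <;> simp
    have e2 : |e * η / Y| = |η| / Y := by
      rw [abs_div, abs_mul, Nat.abs_cast]
      rcases he with rfl | rfl <;> simp
    have e3 : ∀ γ, s * ξ - e * (s * η) / Y * γ = s * (ξ - e * η / Y * γ) := fun γ => by ring
    have u1 : |s * ξ| ≤ U := by rw [e1, hU]; exact le_max_left _ _
    have u2 : |s * η| / Y ≤ U := by rw [e1, hU]; exact le_max_right _ _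
    rw [e2, ← hU] at h1
    rcases h1 with h1 | h1
    · refine fin C1 _ (by linarith) (by linarith) (d4 c1 d1) ?_
      rw [← Sx_sign hs]
      refine H1 e _ _ U Y he ((le_max_left _ _).trans (le_of_max_le_left hY)) h h' u1 u2
        fun γ g1 g2 => ?_
      push_cast at g1 g2
      rw [e3]
      linarith [h1 γ (by linarith) (by linarith)]
    · refine fin C2 _ (by linarith) (by linarith) (d4 c2 d2) ?_
      rw [← Sx_sign hs]
      refine H2 e _ _ U Y he ((le_max_right _ _).trans (le_of_max_le_left hY)) h h' u1 u2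
        fun γ g1 g2 => ?_
      push_cast at g1 g2
      rw [e3]
      linarith [h1 γ (by linarith)]
  · have u1 : U ≤ Real.exp (K * Real.log (2 * Y)) :=
      (hU ▸ max_le t1 t2 : U ≤ _).trans (by gcongr)
    have key := vino2 he hK (hU ▸ h') (hU ▸ u1) (hL.trans hlog)
    rw [neg_div] at key
    refine fin 9 _ (by norm_num) (by linarith) ?_ key
    have u2 := Real.log_le_log (by linarith) u1
    rw [Real.log_exp] at u2
    calc c / K ^ 3 * Real.log T ≤ 1 / 10 ^ 12 / K ^ 3 * (K * Real.log (2 * Y)) := by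
          gcongr
          linarith
      _ = _ := by field_simp

end Pool.Agent.P.MP_9d1108_nt.Sw
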