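import Pool.Agent.P.MP_9d1108_nt.Sw.Num

/-! Windows of length at least `x exp (-(log x) ^ (3 / 5))`, and the size of this function. -/

namespace Pool.Agent.P.MP_9d1108_nt.Sw

open Finset Filter Topology

theorem mul_of {f : ℕ → ℕ} (h1 : ∀ a b, a.Coprime b → f (a * b) = f a * f b)
    (h2 : (∀ p, p.Prime → f p + 1 = p) ∨ ∀ p, p.Prime → f p = p + 1)
    (h3 : ∀ n, Nat.totient n ≤ f n) : ∃ e, Mul f e := by
  have h4 : f 1 = 1 := by
    have a := h1 1 1 (Nat.coprime_one_left 1)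
    have b := h3 1
    rw [Nat.totient_one] at b
    rw [mul_one] at a
    nlinarith
  rcases h2 with h | h
  · exact ⟨-1, .inr rfl, h4, h1, fun p hp => by
      rw [← sub_eq_add_neg, eq_sub_iff_add_eq]; exact_mod_cast h p hp⟩
  · exact ⟨1, .inl rfl, h4, h1, fun p hp => by exact_mod_cast h p hp⟩

theorem tendsto_log : Tendsto (fun x : ℕ => Real.log x) atTop atTop :=
  Real.tendsto_log_atTop.comp tendsto_natCast_atTop_atTop

theorem tendsto_root : Tendsto (fun x : ℕ => Real.log x ^ (1 / 5 : ℝ)) atTop atTop :=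
  (tendsto_rpow_atTop (by norm_num)).comp tendsto_log

theorem root_pow (x : ℕ) : (Real.log x ^ (1 / 5 : ℝ)) ^ 5 = Real.log x ∧
    (Real.log x ^ (1 / 5 : ℝ)) ^ 3 = Real.log x ^ (3 / 5 : ℝ) := by
  constructor <;> rw [← Real.rpow_natCast, ← Real.rpow_mul (Real.log_natCast_nonneg x)] <;> norm_num

theorem windows : ∃ C : ℝ, ∀ᶠ x : ℕ in atTop, ∀ (f : ℕ → ℕ) (e h : ℝ), Mul f e → f 0 ≤ x →
    x * Real.exp (-Real.log x ^ (3 / 5 : ℝ)) ≤ h →
      (Set.ncard {n : ℕ | (x : ℝ) < n + (f n : ℝ) ∧ n + (f n : ℝ) < x + h} : ℝ) ≤ C * h := by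
  obtain ⟨A, A0, hA⟩ := core
  refine ⟨2 * A + 3, ?_⟩
  filter_upwards [tendsto_root.eventually hA, eventually_ge_atTop 1] with x hx x1 f e h hf f0 hh
  have x2 : (1 : ℝ) ≤ x := by exact_mod_cast x1
  obtain ⟨δ, hδ⟩ : ∃ δ, δ = Real.exp (-Real.log x ^ (3 / 5 : ℝ)) := ⟨_, rfl⟩
  replace hx := fun X S => hx f e x δ X S hf (by rw [(root_pow x).1, Real.exp_log (by linarith)])
    (by rw [(root_pow x).2, hδ])
  rw [← hδ] at hh
  have δ0 : 0 < x * δ := by rw [hδ]; positivity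
  have h0 : 0 < h := δ0.trans_le hh
  obtain ⟨T, hT⟩ : ∃ T, T = (range (⌊x + h⌋₊ + 1)).filter fun n : ℕ =>
      (x : ℝ) < n + (f n : ℝ) ∧ n + (f n : ℝ) < x + h := ⟨_, rfl⟩
  have e1 : {n : ℕ | (x : ℝ) < n + (f n : ℝ) ∧ n + (f n : ℝ) < x + h} = T := by
    ext n
    rw [hT, mem_coe, mem_filter, mem_range, Nat.lt_succ_iff]
    exact ⟨fun h => ⟨Nat.le_floor (by linarith [h.2, Nat.cast_nonneg (α := ℝ) (f n)]), h⟩,
      fun h => h.2⟩
  rw [e1, Set.ncard_coe_finset]
  rcases le_or_gt (x : ℝ) h with h1 | h1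
  · have h2 : T.card ≤ ⌊x + h⌋₊ + 1 := hT ▸ (card_filter_le _ _).trans (card_range _).le
    have h3 : (T.card : ℝ) ≤ ⌊x + h⌋₊ + 1 := by exact_mod_cast h2
    nlinarith [Nat.floor_le (show 0 ≤ x + h by positivity)]
  have h2 : T ⊆ (range ⌈h / (x * δ)⌉₊).biUnion fun i => T.filter fun n =>
      x + i * (x * δ) ≤ n + (f n : ℝ) ∧ n + (f n : ℝ) ≤ x + i * (x * δ) + x * δ := fun n hn => by
    obtain ⟨-, a, b⟩ := mem_filter.1 (hT ▸ hn)
    have c : 0 ≤ (n + (f n : ℝ) - x) / (x * δ) := div_nonneg (by linarith) δ0.le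
    have d1 := (le_div_iff₀ δ0).1 (Nat.floor_le c)
    have d2 := (div_lt_iff₀ δ0).1 (Nat.lt_floor_add_one ((n + (f n : ℝ) - x) / (x * δ)))
    refine mem_biUnion.2 ⟨⌊(n + (f n : ℝ) - x) / (x * δ)⌋₊, mem_range.2 (Nat.lt_ceil.2
      ((Nat.floor_le c).trans_lt (div_lt_div_of_pos_right (by linarith) δ0))),
      mem_filter.2 ⟨hn, by linarith, by linarith⟩⟩
  have h3 := (Nat.cast_le (α := ℝ)).2 ((card_le_card h2).trans card_biUnion_le)
  rw [Nat.cast_sum] at h3
  refine (h3.trans (sum_le_card_nsmul _ _ (A * (x * δ)) fun i hi => hx (x + i * (x * δ)) _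
    (le_add_of_nonneg_right (by positivity)) ?_ fun n hn => ?_)).trans ?_
  · linarith [(lt_div_iff₀ δ0).1 (Nat.lt_ceil.1 (mem_range.1 hi))]
  · obtain ⟨a, b⟩ := mem_filter.1 hn
    refine ⟨Nat.pos_of_ne_zero ?_, b⟩
    rintro rfl
    have := (mem_filter.1 (hT ▸ a)).2.1
    rw [Nat.cast_zero, zero_add] at this
    exact this.not_ge (by exact_mod_cast f0)
  · have h4 := (Nat.ceil_lt_add_one (show 0 ≤ h / (x * δ) by positivity)).le
    rw [div_add_one δ0.ne', le_div_iff₀ δ0] at h4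
    rw [card_range, nsmul_eq_mul]
    nlinarith [mul_le_mul_of_nonneg_left (h4.trans (add_le_add_right hh h)) A0.le]

theorem inv_le_prod (s : Finset ℕ) (hs : ∀ p ∈ s, 2 ≤ p) :
    1 / ((s.card : ℝ) + 1) ≤ ∏ p ∈ s, (1 - (p : ℝ)⁻¹) := by
  induction s using Finset.induction_on_max with
  | empty => simp
  | insert a s ha ih =>
    have h1 : a ∉ s := fun h => (ha a h).false
    have h2 := ih fun p hp => hs p (mem_insert_of_mem hp)
    have h3 : s.card ≤ (Ico 2 a).card := card_le_card fun p hp =>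
      mem_Ico.2 ⟨hs p (mem_insert_of_mem hp), ha p hp⟩
    have h4 := hs a (mem_insert_self _ _)
    have h5 : (s.card : ℝ) + 2 ≤ a := by
      rw [Nat.card_Ico] at h3
      exact_mod_cast (by omega : s.card + 2 ≤ a)
    have h6 : ((s.card : ℝ) + 1) / (s.card + 2) ≤ 1 - (a : ℝ)⁻¹ := by
      have := inv_anti₀ (by positivity) h5
      rw [show ((s.card : ℝ) + 1) / (s.card + 2) = 1 - ((s.card : ℝ) + 2)⁻¹ by field_simp; ring]
      linarith
    rw [prod_insert h1, card_insert_of_notMem h1]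
    refine le_trans (le_of_eq ?_) (mul_le_mul h6 h2 (by positivity) (le_trans (by positivity) h6))
    push_cast
    field_simp
    ring

theorem le_totient {n : ℕ} (hn : 0 < n) : (n : ℝ) / (2 * Real.log n + 1) ≤ Nat.totient n := by
  have h1 : (Nat.totient n : ℝ) = n * ∏ p ∈ n.primeFactors, (1 - (p : ℝ)⁻¹) := by
    have := congrArg (Rat.cast : ℚ → ℝ) (Nat.totient_eq_mul_prod_factors n)
    push_cast at this
    exact this
  have h2 := card_le_log n.primeFactors fun p hp => Nat.prime_of_mem_primeFactors hp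
  have h3 := Real.log_le_log (by exact_mod_cast prod_pos fun p hp => Nat.pos_of_mem_primeFactors hp)
    ((Nat.cast_le (α := ℝ)).2 (Nat.le_of_dvd hn (Nat.prod_primeFactors_dvd n)))
  rw [h1, div_eq_mul_one_div]
  exact mul_le_mul_of_nonneg_left ((one_div_le_one_div_of_le (by positivity) (by linarith)).trans
    (inv_le_prod _ fun p hp => (Nat.prime_of_mem_primeFactors hp).two_le)) (Nat.cast_nonneg _)

theorem tendsto_div {f : ℕ → ℕ} (hf : ∀ n, Nat.totient n ≤ f n) :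
    Tendsto (fun n : ℕ => n * Real.exp (-Real.log n ^ (3 / 5 : ℝ)) / f n) atTop (𝓝 0) := by
  have h1 := ((Real.tendsto_pow_mul_exp_neg_atTop_nhds_zero 5).comp tendsto_root).const_mul 3
  rw [mul_zero] at h1
  refine squeeze_zero' (Eventually.of_forall fun n => by positivity) ?_ h1
  filter_upwards [tendsto_root.eventually_ge_atTop 1, eventually_gt_atTop 0] with n h2 h3
  have h4 := one_le_pow₀ (n := 5) h2
  have h5 : (0 : ℝ) < n := by exact_mod_cast h3
  have h6 := Real.exp_le_exp.2 (neg_le_neg (le_self_pow₀ h2 (show 3 ≠ 0 by norm_num)))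
  rw [(root_pow n).2] at h6
  rw [(root_pow n).1] at h4
  refine (div_le_div_of_nonneg_left (by positivity) (by positivity)
    ((le_totient h3).trans (Nat.cast_le.2 (hf n)))).trans ?_
  rw [Function.comp, (root_pow n).1, div_div_eq_mul_div, mul_assoc, mul_div_cancel_left₀ _ h5.ne',
    ← mul_assoc, mul_comm]
  gcongr
  linarith

theorem tendsto_F :
    Tendsto (fun x : ℕ => x * Real.exp (-Real.log x ^ (3 / 5 : ℝ))) atTop atTop := by
  refine tendsto_atTop_mono' _ ?_ tendsto_root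
  filter_upwards [tendsto_root.eventually_ge_atTop 2, eventually_gt_atTop 0] with x h1 h2
  obtain ⟨h3, h4⟩ := root_pow x
  rw [← h4, ← Real.exp_log (show (0 : ℝ) < x by exact_mod_cast h2), Real.log_exp, ← Real.exp_add]
  generalize Real.log x ^ (1 / 5 : ℝ) = l at *
  have h5 : l ≤ l ^ 3 := le_self_pow₀ (by linarith) (by norm_num)
  have h6 : l ^ 3 * 2 ≤ l ^ 3 * l ^ 2 := by gcongr; nlinarith
  nlinarith [Real.add_one_le_exp (Real.log x + -l ^ 3)]

end Pool.Agent.P.MP_9d1108_nt.Sw
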