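import Pool.Agent.P.MP_9d1108_nt.Sw.Cls

/-! The choice of the parameters and the count in one short interval. -/

namespace Pool.Agent.P.MP_9d1108_nt.Sw

open Finset Filter

/-- The size conditions on the parameter `l = (log x) ^ (1 / 5)`. -/
structure Lg (c C Y0 M l : ℝ) : Prop where
  c0 : 0 < c
  c1 : c ≤ 1
  C1 : 1 ≤ C
  hM : M * c = 200
  a1 : Y0 ≤ l
  a2 : 10 ^ 14 * M ≤ c * l
  a3 : 2 * C * M ≤ l
  a4 : 80 * M ^ 2 ≤ Real.log l
  a5 : 4 * 10 ^ 6 * Real.log l ≤ l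

theorem lg {c C : ℝ} (Y0 : ℝ) (c0 : 0 < c) (c1 : c ≤ 1) (C1 : 1 ≤ C) :
    ∀ᶠ l in atTop, Lg c C Y0 (200 / c) l := by
  filter_upwards [eventually_ge_atTop Y0, eventually_ge_atTop (10 ^ 14 * (200 / c) / c),
    eventually_ge_atTop (2 * C * (200 / c)),
    Real.tendsto_log_atTop.eventually_ge_atTop (80 * (200 / c) ^ 2),
    Real.isLittleO_log_id_atTop.bound (show (0 : ℝ) < 1 / (4 * 10 ^ 6) by norm_num),
    eventually_ge_atTop 0] with l h1 h2 h3 h4 h5 h6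
  refine ⟨c0, c1, C1, by field_simp, h1, by rwa [div_le_iff₀' c0] at h2, h3, h4, ?_⟩
  rw [id, Real.norm_eq_abs, Real.norm_eq_abs, abs_of_nonneg h6] at h5
  linarith [le_abs_self (Real.log l)]

variable {c C Y0 M l : ℝ}

theorem Lg.M1 (h : Lg c C Y0 M l) : 200 ≤ M := by
  have h1 : 0 < M := pos_of_mul_pos_left (a := M) (b := c) (by rw [h.hM]; norm_num) h.c0.le
  nlinarith [h.hM, h.c1]

theorem Lg.Ml (h : Lg c C Y0 M l) : 10 ^ 14 * M ≤ l := by
  have h1 : 0 < c * l := by linarith [h.a2, h.M1]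
  have h2 : 0 < l := pos_of_mul_pos_right h1 h.c0.le
  nlinarith [h.a2, h.c1]

theorem Lg.l1 (h : Lg c C Y0 M l) : 10 ^ 16 ≤ l := by linarith [h.M1, h.Ml]

theorem Lg.pow (h : Lg c C Y0 M l) (k : ℕ) : l ^ k = Real.exp (k * Real.log l) := by
  rw [Real.exp_nat_mul, Real.exp_log (by linarith [h.l1])]

theorem Lg.logt (h : Lg c C Y0 M l) {t : ℝ} (t0 : 0 < t) (t1 : t ≤ 2 * M * l ^ 3) :
    l * Real.log (450 * t) ≤ l ^ 2 := by
  have l1 := h.l1
  have h1 : 450 * t ≤ l ^ 4 := by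
    have : 900 * M * l ^ 3 ≤ l * l ^ 3 := by gcongr; linarith [h.Ml, h.M1]
    linarith
  have h2 := Real.log_le_log (by positivity) h1
  rw [Real.log_pow] at h2
  have h3 : 0 ≤ Real.log l := Real.log_nonneg (by linarith)
  rw [sq]
  exact mul_le_mul_of_nonneg_left (by push_cast at h2; linarith [h.a5]) (by linarith)

theorem Lg.p12 (h : Lg c C Y0 M l) : l ^ 12 ≤ Real.exp (l ^ 2) := by
  have l1 := h.l1
  have h3 : 0 ≤ Real.log l := Real.log_nonneg (by linarith)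
  rw [h.pow 12]
  exact Real.exp_le_exp.2 (by push_cast; nlinarith [h.a5])

theorem Lg.scale (h : Lg c C Y0 M l) {t B w m W : ℝ} {J : ℕ} (t0 : 1 ≤ t) (t1 : t ≤ 2 * M * l ^ 3)
    (hJ : J * t ≤ l ^ 5 / 40) (B0 : 0 ≤ B) (B1 : B ≤ l ^ 3) (hw : w ≤ M * l ^ 2)
    (m1 : m ≤ 2 * l) (W0 : 0 ≤ W) (W1 : W ≤ 2 * l ^ 5) :
    m * (10 ^ 5 * J * B ^ J * Real.exp w *
      (Real.exp (-(Real.log l / t * (l ^ 5 / 5)) + l * Real.log (450 * t)) * W)) ≤ 1 := by
  have l1 := h.l1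
  have M1 := h.M1
  have l0 : 0 < l := by linarith
  have h3 : 0 ≤ Real.log l := Real.log_nonneg (by linarith)
  obtain ⟨u, hu⟩ : ∃ u, u = Real.log l / t * l ^ 5 := ⟨_, rfl⟩
  have u1 : 40 * (M * l ^ 2) ≤ u := by
    rw [hu, div_mul_eq_mul_div, le_div_iff₀ (by linarith)]
    calc 40 * (M * l ^ 2) * t ≤ 40 * (M * l ^ 2) * (2 * M * l ^ 3) := by gcongr
      _ = 80 * M ^ 2 * l ^ 5 := by ring
      _ ≤ _ := by gcongr; exact h.a4
  have u2 : J * Real.log l ≤ u / 40 := by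
    rw [hu, div_mul_eq_mul_div, div_div, le_div_iff₀ (by linarith)]
    nlinarith [mul_le_mul_of_nonneg_left hJ h3]
  have b1 : B ^ J ≤ Real.exp (3 * (u / 40)) := by
    refine (pow_le_pow_left₀ B0 B1 J).trans ?_
    rw [← pow_mul, h.pow]
    exact Real.exp_le_exp.2 (by push_cast; linarith)
  have J1 : (J : ℝ) ≤ l ^ 5 := by
    nlinarith [Nat.cast_nonneg (α := ℝ) J, pow_pos l0 5]
  have b2 : m * 10 ^ 5 * J * W ≤ Real.exp (l ^ 2) := by
    refine le_trans ?_ h.p12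
    calc m * 10 ^ 5 * J * W ≤ 2 * l * 10 ^ 5 * l ^ 5 * (2 * l ^ 5) := by gcongr
      _ = 4 * 10 ^ 5 * l ^ 11 := by ring
      _ ≤ l * l ^ 11 := by gcongr; linarith
      _ = _ := by ring
  have b3 := h.logt (by linarith) t1
  have b4 : l ^ 2 ≤ M * l ^ 2 := le_mul_of_one_le_left (by positivity) (by linarith)
  calc _ = m * 10 ^ 5 * J * W * B ^ J * Real.exp w *
        Real.exp (-(u / 5) + l * Real.log (450 * t)) := by rw [hu]; ring_nf
    _ ≤ Real.exp (l ^ 2) * Real.exp (3 * (u / 40)) * Real.exp w *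
        Real.exp (-(u / 5) + l * Real.log (450 * t)) := by gcongr
    _ ≤ 1 := by
      rw [← Real.exp_add, ← Real.exp_add, ← Real.exp_add, Real.exp_le_one_iff]
      nlinarith [pow_pos l0 2]

theorem Lg.zero (h : Lg c C Y0 M l) {t W : ℝ} (t0 : 0 < t) (t1 : t ≤ M * l ^ 2) (W0 : 0 ≤ W)
    (W1 : W ≤ 2 * l ^ 5) :
    3 * (Real.exp (-(Real.log l / t * (l ^ 5 / 3)) + l * Real.log (450 * t)) * W) ≤
      Real.exp (-l ^ 3) := by
  have l1 := h.l1
  have M1 := h.M1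
  have l0 : 0 < l := by linarith
  have b0 : l ^ 2 ≤ l ^ 3 := pow_le_pow_right₀ (by linarith) (by norm_num)
  have u1 : 3 * l ^ 3 ≤ Real.log l / t * (l ^ 5 / 3) := by
    rw [div_mul_eq_mul_div, le_div_iff₀ t0]
    calc 3 * l ^ 3 * t ≤ 3 * l ^ 3 * (M * l ^ 2) := by gcongr
      _ = 9 * M * (l ^ 5 / 3) := by ring
      _ ≤ _ := by gcongr; nlinarith [h.a4]
  have b2 : 3 * W ≤ Real.exp (l ^ 2) := by
    refine le_trans ?_ h.p12
    calc 3 * W ≤ l * l ^ 5 := by nlinarith [pow_pos l0 5]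
      _ = l ^ 6 := by ring
      _ ≤ _ := pow_le_pow_right₀ (by linarith) (by norm_num)
  have b3 := h.logt t0 (t1.trans (by nlinarith [pow_pos l0 3]))
  rw [mul_left_comm, mul_comm]
  refine (mul_le_mul_of_nonneg_right b2 (Real.exp_pos _).le).trans ?_
  rw [← Real.exp_add]
  exact Real.exp_le_exp.2 (by linarith)

theorem Lg.sum (h : Lg c C Y0 M l) {w : ℝ} {m : ℕ} (w0 : M * l ^ 2 / 2 ≤ w) (w1 : w ≤ M * l ^ 2)
    (m1 : (m : ℝ) ≤ 2 * l) :
    ∑ i ∈ Icc 1 m, (⌈4 * (1000 + l ^ 3 / (i * w)) ^ 3 / c⌉₊ : ℝ) * ((i + 1) * w) ≤ l ^ 5 / 40 := by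
  have l1 := h.l1
  have M1 := h.M1
  have c0 := h.c0
  have l0 : 0 < l := by linarith
  have w2 : 0 < w := lt_of_lt_of_le (by positivity) w0
  have h1 : ∀ i ∈ Icc 1 m, (⌈4 * (1000 + l ^ 3 / (i * w)) ^ 3 / c⌉₊ : ℝ) * ((i + 1) * w) ≤
      40 / c * (10 ^ 9 * (m * w) + l ^ 9 / w ^ 2 * ((i : ℝ) ^ 2)⁻¹) := fun i hi => by
    have i1 : (1 : ℝ) ≤ i := by exact_mod_cast (mem_Icc.1 hi).1
    have i2 : (i : ℝ) ≤ m := by exact_mod_cast (mem_Icc.1 hi).2
    obtain ⟨a, ha⟩ : ∃ a, a = l ^ 3 / (i * w) := ⟨_, rfl⟩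
    have a0 : 0 ≤ a := by rw [ha]; positivity
    rw [← ha]
    have b1 : (1000 + a) ^ 3 ≤ 4 * (10 ^ 9 + a ^ 3) := by
      nlinarith [mul_nonneg (show 0 ≤ 1000 + a by positivity) (sq_nonneg (a - 1000))]
    have b2 : (⌈4 * (1000 + a) ^ 3 / c⌉₊ : ℝ) ≤ 20 / c * (10 ^ 9 + a ^ 3) := by
      refine (Nat.ceil_lt_add_one (by positivity)).le.trans ?_
      rw [div_add_one c0.ne', div_mul_eq_mul_div]
      refine div_le_div_of_nonneg_right ?_ c0.le
      nlinarith [h.c1, pow_nonneg a0 3]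
    have b3 : a ^ 3 * (i * w) = l ^ 9 / w ^ 2 * ((i : ℝ) ^ 2)⁻¹ := by
      rw [ha]
      field_simp
    calc _ ≤ 20 / c * (10 ^ 9 + a ^ 3) * (2 * i * w) := by gcongr; linarith
      _ = 40 / c * (10 ^ 9 * (i * w) + a ^ 3 * (i * w)) := by ring
      _ ≤ _ := by rw [b3]; gcongr
  refine (sum_le_sum h1).trans ?_
  rw [← mul_sum, sum_add_distrib, sum_const, ← mul_sum, Nat.card_Icc, add_tsub_cancel_right,
    nsmul_eq_mul]
  have h2 : ∑ i ∈ Icc 1 m, ((i : ℝ) ^ 2)⁻¹ ≤ 2 := by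
    have := sum_Ioo_inv_sq_le (α := ℝ) 0 (m + 1)
    rw [show Ioo 0 (m + 1) = Icc 1 m by ext; simp; omega] at this
    simpa using this
  have h3 : l ^ 9 / w ^ 2 ≤ 4 * l ^ 5 / M ^ 2 := by
    rw [div_le_div_iff₀ (by positivity) (by positivity)]
    calc l ^ 9 * M ^ 2 = 4 * l ^ 5 * (M * l ^ 2 / 2) ^ 2 := by ring
      _ ≤ _ := by gcongr
  have h4 : (m : ℝ) * (10 ^ 9 * (m * w)) ≤ c * l ^ 5 / 3200 := by
    calc (m : ℝ) * (10 ^ 9 * (m * w)) ≤ 2 * l * (10 ^ 9 * (2 * l * (M * l ^ 2))) := by gcongr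
      _ = 10 ^ 14 * M * l ^ 4 / 25000 := by ring
      _ ≤ c * l * l ^ 4 / 25000 := by gcongr ?_ * _ / _; exact h.a2
      _ ≤ c * l * l ^ 4 / 3200 := by gcongr; norm_num
      _ = _ := by ring
  have h5 : 4 * l ^ 5 / M ^ 2 * 2 ≤ c * l ^ 5 / 3200 := by
    rw [div_mul_eq_mul_div, div_le_div_iff₀ (by positivity) (by positivity)]
    calc 4 * l ^ 5 * 2 * 3200 ≤ l ^ 5 * (200 * M) := by nlinarith [pow_pos l0 5]
      _ = _ := by rw [← h.hM]; ring
  calc _ ≤ 40 / c * (c * l ^ 5 / 3200 + c * l ^ 5 / 3200) := by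
        gcongr
        exact le_trans (by gcongr) h5
    _ = _ := by field_simp; norm_num

theorem core : ∃ A : ℝ, 0 < A ∧ ∀ᶠ l : ℝ in atTop, ∀ (f : ℕ → ℕ) (e x δ X : ℝ) (S : Finset ℕ),
    Mul f e → x = Real.exp (l ^ 5) → δ = Real.exp (-l ^ 3) → x ≤ X → X ≤ 2 * x →
      (∀ n ∈ S, 0 < n ∧ X ≤ n + (f n : ℝ) ∧ n + (f n : ℝ) ≤ X + x * δ) →
        (S.card : ℝ) ≤ A * (x * δ) := by
  classical
  obtain ⟨c, C, Y0, c0, c1, C1, H⟩ := tup
  obtain ⟨A, A0, hA⟩ := sieve_count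
  refine ⟨A + 8, by positivity, (lg Y0 c0 c1 C1).mono fun l h f e x δ X S hf hx hδ x1 x2 hS => ?_⟩
  generalize 200 / c = M at h
  have l1 := h.l1
  have M1 := h.M1
  have Ml := h.Ml
  have l0 : 0 < l := by linarith
  have p2 : l ≤ l ^ 2 := le_self_pow₀ (by linarith) two_ne_zero
  have p3 : 10 ^ 16 * l ^ 2 ≤ l ^ 3 := by nlinarith
  have p5 : 10 ^ 14 * M * l ^ 3 ≤ l ^ 5 := by
    calc 10 ^ 14 * M * l ^ 3 ≤ l ^ 2 * l ^ 3 := by gcongr; linarith
      _ = _ := by ring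
  have p6 : 200 * l ^ 2 ≤ M * l ^ 2 := by gcongr
  have p7 : 200 * l ^ 3 ≤ M * l ^ 3 := by gcongr
  have ll : 0 ≤ Real.log l := Real.log_nonneg (by linarith)
  obtain ⟨κ, hκ⟩ : ∃ κ, κ = ⌈M * l ^ 2⌉₊ := ⟨_, rfl⟩
  obtain ⟨m, hm⟩ : ∃ m, m = ⌈l⌉₊ := ⟨_, rfl⟩
  obtain ⟨w, hw⟩ : ∃ w, w = κ * Real.log 2 := ⟨_, rfl⟩
  obtain ⟨N, hN⟩ : ∃ N, N = ⌊3 * x⌋₊ := ⟨_, rfl⟩
  have x0 : 0 < x := hx ▸ Real.exp_pos _
  have δ0 : 0 < δ := hδ ▸ Real.exp_pos _
  have δ2 : 1 / δ = Real.exp (l ^ 3) := by rw [hδ, Real.exp_neg, one_div, inv_inv]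
  have δ1 : δ ≤ 1 / 2 := by
    rw [le_one_div δ0 two_pos, δ2]
    linarith [Real.add_one_le_exp (l ^ 3)]
  have k1 : M * l ^ 2 ≤ κ := hκ ▸ Nat.le_ceil _
  have k2 : κ < M * l ^ 2 + 1 := hκ ▸ Nat.ceil_lt_add_one (by positivity)
  have k0 : 0 < κ := by exact_mod_cast (show (0 : ℝ) < κ by linarith)
  have m1 : l ≤ m := hm ▸ Nat.le_ceil _
  have m2 : m < l + 1 := hm ▸ Nat.ceil_lt_add_one l0.le
  have w0 : M * l ^ 2 / 2 ≤ w := by nlinarith [Real.log_two_gt_d9]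
  have w1 : w ≤ M * l ^ 2 := by nlinarith [Real.log_two_lt_d9]
  have e1 : ∀ i : ℕ, (2 : ℝ) ^ (i * κ) = Real.exp (i * w) := fun i => by
    rw [hw, ← mul_assoc, ← Nat.cast_mul, Real.exp_nat_mul, Real.exp_log two_pos]
  have e2 : ∀ i : ℕ, Real.log (2 ^ ((i + 1) * κ)) = (i + 1) * w := fun i => by
    rw [e1, Real.log_exp, Nat.cast_succ]
  have N1 : (N : ℝ) ≤ 3 * x := hN ▸ Nat.floor_le (by positivity)
  have N2 : Real.log (3 * x) ≤ 2 + l ^ 5 := by
    rw [Real.log_mul (by norm_num) x0.ne', hx, Real.log_exp]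
    linarith [Real.log_le_sub_one_of_pos (show (0 : ℝ) < 3 by norm_num)]
  have W0 : 0 ≤ 1 + Real.log N := by linarith [Real.log_natCast_nonneg N]
  have W1 : 1 + Real.log N ≤ 2 * l ^ 5 := by
    rcases Nat.eq_zero_or_pos N with rfl | h
    · rw [Nat.cast_zero, Real.log_zero]; linarith
    · linarith [Real.log_le_log (by exact_mod_cast h) N1]
  have hn : ∀ n ∈ S, n ∈ Ioc 0 N := fun n hn => mem_Ioc.2 ⟨(hS n hn).1, hN ▸ Nat.le_floor (by
    nlinarith [(hS n hn).2.2, Nat.cast_nonneg (α := ℝ) (f n)])⟩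
  obtain ⟨J, hJ⟩ : ∃ J : ℕ → ℕ, ∀ i, J i = ⌈4 * (1000 + l ^ 3 / (i * w)) ^ 3 / c⌉₊ := ⟨_, fun _ => rfl⟩
  have s1 := h.sum w0 w1 (m := m) (by linarith)
  simp only [← hJ] at s1
  have z1 : 2 * l ^ 3 ≤ (m + 1) * w := by nlinarith
  have z2 : ∀ i : ℝ, i ≤ m → (i + 1) * w ≤ 2 * M * l ^ 3 := fun i hi => by
    calc (i + 1) * w ≤ 2 * l * (M * l ^ 2) := by gcongr <;> linarith
      _ = _ := by ring
  have h1 : S ⊆ (S.filter fun n => ∃ k : ℕ, Real.exp (l ^ 3) < k ∧ k ^ 2 ∣ n) ∪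
      (S.filter (Sv (2 ^ ((m + 1) * κ)) (Real.exp (l ^ 5 / 2))) ∪
        (S.filter (Big (2 ^ κ) (l ^ 5 / 3)) ∪ (Icc 1 m).biUnion fun j =>
          S.filter (Sc (j * κ) ((j + 1) * κ) (J j) (l ^ 5 / 5)))) := fun n hn => by
    simp only [mem_union, mem_filter, mem_biUnion, hn, true_and]
    refine split J (hS n hn).1 ?_ ?_ ?_
    · rw [e1]
      exact Real.exp_le_exp.2 (by push_cast; linarith)
    · simp only [e2, Real.log_exp]
      linarith
    · simp only [e2]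
      linarith
  have h2 := sq_count (S.filter fun n => ∃ k : ℕ, Real.exp (l ^ 3) < k ∧ k ^ 2 ∣ n) N
    (Real.exp_pos (l ^ 3)) fun n h => ⟨hn n (mem_filter.1 h).1, (mem_filter.1 h).2⟩
  have h3 := hA f e x X δ (2 ^ ((m + 1) * κ)) (Real.exp (l ^ 5 / 2))
    (S.filter (Sv (2 ^ ((m + 1) * κ)) (Real.exp (l ^ 5 / 2)))) hf
    (le_self_pow₀ one_le_two (by positivity)) x0 x1 x2 δ0 δ1 (by
      rw [e1, hδ, ← Real.exp_add]
      refine le_trans ?_ (Real.exp_le_exp.2 (show l ^ 3 ≤ _ by push_cast; linarith))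
      have := Real.pow_div_factorial_le_exp (l ^ 3) (by positivity) 2
      rw [← pow_mul, pow_succ] at this
      norm_num at this
      nlinarith) (by
      rw [e1, hδ, hx, ← Real.exp_nat_mul, ← Real.exp_add, ← Real.exp_add]
      exact Real.exp_le_exp.2 (by push_cast; linarith [z2 m le_rfl]))
    fun n h => ⟨(hS n (mem_filter.1 h).1).2.1, (hS n (mem_filter.1 h).1).2.2, (mem_filter.1 h).2⟩
  have h4 : ((S.filter (Big (2 ^ κ) (l ^ 5 / 3))).card : ℝ) ≤ x * δ := by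
    have e3 : Real.log (2 ^ κ) = w := by rw [Real.log_pow, hw]
    have b1 := rankin (S.filter (Big (2 ^ κ) (l ^ 5 / 3))) N (η := Real.log l / w)
      (le_self_pow₀ one_le_two k0.ne') (div_nonneg ll (by linarith)) l0
      (by rw [e3, div_mul_cancel₀ _ (by linarith)])
      fun n h => ⟨hn n (mem_filter.1 h).1, (mem_filter.1 h).2⟩
    have b2 := h.zero (t := w) (by linarith) w1 W0 W1
    rw [e3] at b1
    rw [← hδ] at b2
    refine le_trans ?_ ((mul_le_mul_of_nonneg_left b1 (show 0 ≤ 3 * x by positivity)).trans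
      (by nlinarith))
    rw [card_eq_sum_ones, Nat.cast_sum, mul_sum]
    refine sum_le_sum fun n h => ?_
    obtain ⟨b3, b4⟩ := mem_Ioc.1 (hn n (mem_filter.1 h).1)
    rw [mul_one_div, Nat.cast_one, one_le_div (by exact_mod_cast b3)]
    exact le_trans (by exact_mod_cast b4) N1
  have h5 : ∀ j ∈ Icc 1 m, ((S.filter (Sc (j * κ) ((j + 1) * κ) (J j) (l ^ 5 / 5))).card : ℝ) ≤
      x * δ / m := fun j hj => by
    have j1 : (1 : ℝ) ≤ j := by exact_mod_cast (mem_Icc.1 hj).1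
    have j2 : (j : ℝ) ≤ m := by exact_mod_cast (mem_Icc.1 hj).2
    have j3 : w ≤ j * w := le_mul_of_one_le_left (by linarith) j1
    have e3 : ((j * κ : ℕ) : ℝ) * Real.log 2 = j * w := by rw [hw, Nat.cast_mul, mul_assoc]
    have K0 : 0 ≤ l ^ 3 / (j * w) := div_nonneg (by linarith) (by linarith)
    have K1 : l ^ 3 / (j * w) ≤ l := by
      rw [div_le_iff₀ (by linarith)]
      nlinarith
    have K2 : Real.log (1000 + l ^ 3 / (j * w)) ≤ 2 * Real.log l := by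
      have := Real.log_le_log (by linarith) (show 1000 + l ^ 3 / (j * w) ≤ l ^ 2 by nlinarith)
      rwa [Real.log_pow] at this
    have b1 := smooth_count (K := 1000 + l ^ 3 / (j * w)) (η := Real.log l / ((j + 1) * w))
      (κ1 := j * κ) (κ2 := (j + 1) * κ) (J := J j) (N := N) (V := l ^ 5 / 5) H C1 hf
      (by rw [e1]; linarith [h.a1, Real.add_one_le_exp (j * w)]) (by rw [add_one_mul]; omega)
      (by linarith) (by
        rw [e3]
        calc _ ≤ 10 ^ 6 * (2 * l) * (2 * Real.log l) := by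
              gcongr
              · exact Real.log_nonneg (by linarith)
              · linarith
          _ ≤ _ := by nlinarith [h.a5]) δ0 (by linarith) (by
        rw [e3, δ2, add_mul, div_mul_cancel₀ _ (by linarith)]
        exact Real.exp_le_exp.2 (by linarith)) (by
        rw [hJ, ← div_le_iff₀' c0]
        exact Nat.le_ceil _) x0 x1 x2 (div_nonneg ll (by nlinarith)) l0
      (by rw [e2, div_mul_cancel₀ _ (by nlinarith)])
      (S.filter (Sc (j * κ) ((j + 1) * κ) (J j) (l ^ 5 / 5))) fun n h =>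
        ⟨hn n (mem_filter.1 h).1, (hS n (mem_filter.1 h).1).2.1, (hS n (mem_filter.1 h).1).2.2,
          (mem_filter.1 h).2⟩
    have b2 := h.scale (t := (j + 1) * w) (B := C * κ) (J := J j) (m := m) (by linarith) (z2 j j2)
      ((single_le_sum (f := fun i => (J i : ℝ) * ((i + 1) * w)) (fun i _ =>
        mul_nonneg (Nat.cast_nonneg _) (mul_nonneg (by positivity) (by linarith))) hj).trans s1)
      (by positivity) (by
        calc C * κ ≤ C * (2 * (M * l ^ 2)) := by gcongr; linarith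
          _ = 2 * C * M * l ^ 2 := by ring
          _ ≤ l * l ^ 2 := by gcongr; exact h.a3
          _ = _ := by ring) w1 (by linarith) W0 W1
    rw [e2, e1, e1, ← Real.exp_sub, show (((j + 1) * κ : ℕ) : ℝ) - (j * κ : ℕ) = κ by
      push_cast; ring, show ((j + 1 : ℕ) : ℝ) * w - j * w = w by push_cast; ring, mul_assoc] at b1
    rw [le_div_iff₀' (by linarith)]
    refine (mul_le_mul_of_nonneg_left b1 (Nat.cast_nonneg _)).trans ?_
    rw [mul_left_comm]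
    exact mul_le_of_le_one_right (by positivity) b2
  have h6 := (Nat.cast_le (α := ℝ)).2 ((card_le_card h1).trans ((card_union_le _ _).trans
    (add_le_add_right ((card_union_le _ _).trans (add_le_add_right ((card_union_le _ _).trans
      (add_le_add_right card_biUnion_le _)) _)) _)))
  push_cast at h6
  have h7 := sum_le_card_nsmul _ _ _ h5
  rw [Nat.card_Icc, add_tsub_cancel_right, nsmul_eq_mul, mul_div_cancel₀ _ (by linarith)] at h7
  have h8 : N * (2 / Real.exp (l ^ 3)) ≤ 3 * x * (2 * δ) := by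
    rw [← δ2, div_div_eq_mul_div, div_one]
    gcongr
  linarith

end Pool.Agent.P.MP_9d1108_nt.Sw
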